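import Pool.Agent.Lib.MP_5453bf_gt.Blocks

/-!
# Solving the presentation
-/

set_option autoImplicit false

namespace Pool.Agent.Lib.MP_5453bf_gt

open Finset

namespace Blk

variable (b : Blk)

/-- extension by zero -/
def ext {H : Type*} [Zero H] (z : {x // x ∈ b.idx} → H) (x : Fin b.r × ℕ × Fin 11) : H :=
  if h : x ∈ b.idx then z ⟨x, h⟩ else 0

lemma ext_of_mem {H : Type*} [Zero H] (z : {x // x ∈ b.idx} → H)
    {x : Fin b.r × ℕ × Fin 11} (h : x ∈ b.idx) : b.ext z x = z ⟨x, h⟩ := dif_pos h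

lemma ext_of_notMem {H : Type*} [Zero H] (z : {x // x ∈ b.idx} → H)
    {x : Fin b.r × ℕ × Fin 11} (h : x ∉ b.idx) : b.ext z x = 0 := dif_neg h

lemma sum_Nb {H : Type*} [AddCommMonoid H] (z : {x // x ∈ b.idx} → H)
    (y : Fin b.r × ℕ × Fin 11) (S : Finset (Fin b.r × ℕ × Fin 11))
    (hS : ∀ x, b.Nb x y ↔ x ∈ S) :
    ∑ x : {x // x ∈ b.idx}, (if b.Nb x.1 y then z x else 0) = ∑ x ∈ S, b.ext z x := by
  have h1 : ∑ x : {x // x ∈ b.idx}, (if b.Nb x.1 y then z x else 0)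
      = ∑ x : {x // x ∈ b.idx}, (if x.1 ∈ S then b.ext z x.1 else 0) := by
    refine sum_congr rfl fun x _ => ?_
    rw [b.ext_of_mem z x.2]
    exact if_congr (hS x.1) rfl rfl
  rw [h1, sum_coe_sort b.idx (fun x => if x ∈ S then b.ext z x else 0), ← sum_filter]
  have h2 : b.idx.filter (· ∈ S) ⊆ S := by
    intro x hx
    exact (mem_filter.1 hx).2
  refine sum_subset h2 fun x hx hn => b.ext_of_notMem z fun h => hn ?_
  exact mem_filter.2 ⟨h, hx⟩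

/-- explicit neighbours -/
def sameF : Fin 11 → Finset (Fin 11) :=
  ![{3, 1, 10}, {1, 2}, {2}, {0, 4}, {0, 6}, {6, 7}, {7, 8}, {4, 5}, {5, 9}, {8, 9}, {0, 10}]

lemma same_iff : ∀ k κ, same k κ ↔ k ∈ sameF κ := by decide
lemma next_iff : ∀ k κ, next k κ ↔ (k = 0 ∧ κ = 8) ∨ (k = 3 ∧ κ = 2) := by decide
lemma sh_eq : ∀ k : Fin 11, sh k = if k = 3 then 1 else 0 := by decide

lemma Nb_iff (j j' : Fin b.r) (i i' : ℕ) (k κ : Fin 11) : b.Nb (j', i', k) (j, i, κ) ↔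
    j' = j ∧ ((i' + (if k = 3 then 1 else 0) = i ∧ k ∈ sameF κ) ∨
      (i' + (if k = 3 then 1 else 0) = i + 1 ∧ ((k = 0 ∧ κ = 8) ∨ (k = 3 ∧ κ = 2)))) := by
  rw [Nb, same_iff, next_iff, sh_eq]

variable {H : Type*} [AddCommMonoid H] (z : {x // x ∈ b.idx} → H) (j : Fin b.r) (i : ℕ)

lemma sum_0_zero : ∑ x : {x // x ∈ b.idx}, (if b.Nb x.1 (j, 0, 0) then z x else 0)
    = b.ext z (j, 0, 1) + b.ext z (j, 0, 10) := by
  rw [b.sum_Nb z _ {(j, 0, 1), (j, 0, 10)}]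
  · rw [sum_insert (by simp), sum_singleton]
  · rintro ⟨j', i', k⟩
    rw [b.Nb_iff]
    fin_cases k <;> simp [sameF]

lemma sum_0_succ : ∑ x : {x // x ∈ b.idx}, (if b.Nb x.1 (j, i + 1, 0) then z x else 0)
    = b.ext z (j, i, 3) + (b.ext z (j, i + 1, 1) + b.ext z (j, i + 1, 10)) := by
  rw [b.sum_Nb z _ {(j, i, 3), (j, i + 1, 1), (j, i + 1, 10)}]
  · rw [sum_insert (by simp), sum_insert (by simp), sum_singleton]
  · rintro ⟨j', i', k⟩
    rw [b.Nb_iff]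
    fin_cases k <;> simp [sameF]

lemma sum_1 : ∑ x : {x // x ∈ b.idx}, (if b.Nb x.1 (j, i, 1) then z x else 0)
    = b.ext z (j, i, 1) + b.ext z (j, i, 2) := by
  rw [b.sum_Nb z _ {(j, i, 1), (j, i, 2)}]
  · rw [sum_insert (by simp), sum_singleton]
  · rintro ⟨j', i', k⟩
    rw [b.Nb_iff]
    fin_cases k <;> simp [sameF]

lemma sum_2 : ∑ x : {x // x ∈ b.idx}, (if b.Nb x.1 (j, i, 2) then z x else 0)
    = b.ext z (j, i, 2) + b.ext z (j, i, 3) := by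
  rw [b.sum_Nb z _ {(j, i, 2), (j, i, 3)}]
  · rw [sum_insert (by simp), sum_singleton]
  · rintro ⟨j', i', k⟩
    rw [b.Nb_iff]
    fin_cases k <;> simp [sameF]

lemma sum_3 : ∑ x : {x // x ∈ b.idx}, (if b.Nb x.1 (j, i, 3) then z x else 0)
    = b.ext z (j, i, 0) + b.ext z (j, i, 4) := by
  rw [b.sum_Nb z _ {(j, i, 0), (j, i, 4)}]
  · rw [sum_insert (by simp), sum_singleton]
  · rintro ⟨j', i', k⟩
    rw [b.Nb_iff]
    fin_cases k <;> simp [sameF]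

lemma sum_4 : ∑ x : {x // x ∈ b.idx}, (if b.Nb x.1 (j, i, 4) then z x else 0)
    = b.ext z (j, i, 0) + b.ext z (j, i, 6) := by
  rw [b.sum_Nb z _ {(j, i, 0), (j, i, 6)}]
  · rw [sum_insert (by simp), sum_singleton]
  · rintro ⟨j', i', k⟩
    rw [b.Nb_iff]
    fin_cases k <;> simp [sameF]

lemma sum_5 : ∑ x : {x // x ∈ b.idx}, (if b.Nb x.1 (j, i, 5) then z x else 0)
    = b.ext z (j, i, 6) + b.ext z (j, i, 7) := by
  rw [b.sum_Nb z _ {(j, i, 6), (j, i, 7)}]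
  · rw [sum_insert (by simp), sum_singleton]
  · rintro ⟨j', i', k⟩
    rw [b.Nb_iff]
    fin_cases k <;> simp [sameF]

lemma sum_6 : ∑ x : {x // x ∈ b.idx}, (if b.Nb x.1 (j, i, 6) then z x else 0)
    = b.ext z (j, i, 7) + b.ext z (j, i, 8) := by
  rw [b.sum_Nb z _ {(j, i, 7), (j, i, 8)}]
  · rw [sum_insert (by simp), sum_singleton]
  · rintro ⟨j', i', k⟩
    rw [b.Nb_iff]
    fin_cases k <;> simp [sameF]

lemma sum_7 : ∑ x : {x // x ∈ b.idx}, (if b.Nb x.1 (j, i, 7) then z x else 0)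
    = b.ext z (j, i, 4) + b.ext z (j, i, 5) := by
  rw [b.sum_Nb z _ {(j, i, 4), (j, i, 5)}]
  · rw [sum_insert (by simp), sum_singleton]
  · rintro ⟨j', i', k⟩
    rw [b.Nb_iff]
    fin_cases k <;> simp [sameF]

lemma sum_8 : ∑ x : {x // x ∈ b.idx}, (if b.Nb x.1 (j, i, 8) then z x else 0)
    = b.ext z (j, i, 5) + (b.ext z (j, i, 9) + b.ext z (j, i + 1, 0)) := by
  rw [b.sum_Nb z _ {(j, i, 5), (j, i, 9), (j, i + 1, 0)}]
  · rw [sum_insert (by simp), sum_insert (by simp), sum_singleton]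
  · rintro ⟨j', i', k⟩
    rw [b.Nb_iff]
    fin_cases k <;> simp [sameF]

lemma sum_9 : ∑ x : {x // x ∈ b.idx}, (if b.Nb x.1 (j, i, 9) then z x else 0)
    = b.ext z (j, i, 8) + b.ext z (j, i, 9) := by
  rw [b.sum_Nb z _ {(j, i, 8), (j, i, 9)}]
  · rw [sum_insert (by simp), sum_singleton]
  · rintro ⟨j', i', k⟩
    rw [b.Nb_iff]
    fin_cases k <;> simp [sameF]

lemma sum_10 : ∑ x : {x // x ∈ b.idx}, (if b.Nb x.1 (j, i, 10) then z x else 0)
    = b.ext z (j, i, 0) + b.ext z (j, i, 10) := by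
  rw [b.sum_Nb z _ {(j, i, 0), (j, i, 10)}]
  · rw [sum_insert (by simp), sum_singleton]
  · rintro ⟨j', i', k⟩
    rw [b.Nb_iff]
    fin_cases k <;> simp [sameF]

end Blk

end Pool.Agent.Lib.MP_5453bf_gt
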