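import Pool.Agent.Lib.MP_5453bf_gt.Skel

set_option autoImplicit false
set_option linter.unusedSectionVars false

namespace Pool.Agent.Lib.MP_5453bf_gt

open Finset

/-- Solution of the presentation given by the incidence relation `N`. -/
structure Gen (ι : Type) [Fintype ι] [DecidableEq ι] (N : ι → ι → Prop) [∀ i k, Decidable (N i k)]
    (J : Type) [Fintype J] [DecidableEq J] where
  base : J → ι
  m : J → ℕ
  m_ne : ∀ j, m j ≠ 0
  c : ι → ℤ
  jj : ι → J
  jj_base : ∀ j, jj (base j) = j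
  c_base : ∀ j, c (base j) = 1
  gen : ∀ (H : Type) [AddCommGroup H] (z : ι → H),
    (∀ k, ∑ i, (if N i k then z i else 0) = 0) →
      (∀ i, z i = c i • z (base (jj i))) ∧ ∀ j, m j • z (base j) = 0
  rel : ∀ k, ∑ i, (if N i k then (Pi.single (jj i) (c i : ZMod (m (jj i))) :
    ∀ j, ZMod (m j)) else 0) = 0

namespace Dat

variable {n d : ℕ} {ι : Type} [Fintype ι] [DecidableEq ι] (D : Dat n d ι)
  [∀ i k, Decidable (D.N i k)] {J : Type} [Fintype J] [DecidableEq J] (G : Gen ι D.N J)

include G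

/-- rational vanishing in degree `d - 1` -/
lemma mid_rat : D.cpx.cycles ℚ d ≤ D.cpx.boundaries ℚ d := by
  intro f hf
  have hz := G.gen _ (D.z ℚ) (by
    intro k
    refine Eq.trans (sum_congr rfl fun i _ => ?_) (D.z_rel (A := ℚ) k)
    by_cases h : D.N i k
    · rw [if_pos h, if_pos h]
    · rw [if_neg h, if_neg h])
  have hb : ∀ j, D.z ℚ (G.base j) = 0 := by
    intro j
    have h1 := hz.2 j
    rw [← Nat.cast_smul_eq_nsmul ℚ] at h1
    rcases smul_eq_zero.1 h1 with h2 | h2
    · exact absurd (by exact_mod_cast h2) (G.m_ne j)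
    · exact h2
  have hall : ∀ i, D.z ℚ i = 0 := by
    intro i
    rw [hz.1 i, hb, smul_zero]
  rw [← Submodule.Quotient.mk_eq_zero, ← Submodule.mkQ_apply, D.mk_cycle f hf]
  exact sum_eq_zero fun i _ => by rw [hall, smul_zero]

omit [DecidableEq ι] [∀ i k, Decidable (D.N i k)] G in
open Classical in
/-- the number of `d`-faces -/
lemma card_top : (univ.filter fun s => s ∈ D.cpx.faces ∧ s.card = d + 1).card
    = (P n d).card := by
  have h1 : (univ.filter fun s => s ∈ D.cpx.faces ∧ s.card = d + 1)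
      = ((P n d \ univ.image D.face).image (insert 0)) ∪ univ.image D.rel := by
    ext s
    simp only [mem_filter, mem_univ, true_and, mem_union, mem_image, mem_sdiff, not_exists,
      mem_P, D.mem_faces]
    constructor
    · rintro ⟨h, hc⟩
      rcases h with h | ⟨_, h | h⟩
      · omega
      · left
        refine ⟨s.erase 0, ⟨⟨by simp, ?_⟩, h.2⟩, insert_erase h.1⟩
        have := card_erase_add_one h.1
        omega
      · exact Or.inr h
    · rintro (⟨τ, ⟨⟨h0, hc⟩, hn⟩, rfl⟩ | ⟨i, rfl⟩)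
      · have hc' : (insert 0 τ).card = d + 1 := by rw [card_insert_of_notMem h0, hc]
        exact ⟨Or.inr ⟨hc', Or.inl ⟨mem_insert_self _ _, by rwa [erase_insert h0]⟩⟩, hc'⟩
      · exact ⟨Or.inr ⟨D.rel_card i, Or.inr ⟨i, rfl⟩⟩, D.rel_card i⟩
  have h2 : Disjoint ((P n d \ univ.image D.face).image (insert 0)) (univ.image D.rel) := by
    rw [disjoint_left]
    intro s hs hs'
    obtain ⟨τ, _, rfl⟩ := mem_image.1 hs
    obtain ⟨i, _, hi⟩ := mem_image.1 hs'
    exact D.rel_zero i (hi ▸ mem_insert_self _ _)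
  have h3 : Set.InjOn (insert (0 : Fin (n + 1)))
      ((P n d \ univ.image D.face : Finset (Finset (Fin (n + 1)))) : Set (Finset (Fin (n + 1)))) := by
    intro s hs t ht hst
    have hs0 := (mem_P.1 (mem_sdiff.1 hs).1).1
    have ht0 := (mem_P.1 (mem_sdiff.1 ht).1).1
    rw [← erase_insert hs0, ← erase_insert ht0, hst]
  have hsub : univ.image D.face ⊆ P n d := by
    intro τ hτ
    obtain ⟨i, _, rfl⟩ := mem_image.1 hτ
    exact mem_P.2 ⟨D.face_zero i, D.face_card i⟩
  rw [h1, card_union_of_disjoint h2, card_image_of_injOn h3, card_sdiff_of_subset hsub,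
    card_image_of_injective _ D.face_inj, card_image_of_injective _ D.rel_inj]
  have := card_le_card hsub
  rw [card_image_of_injective _ D.face_inj] at this
  omega

/-- rational vanishing in the top degree -/
lemma top_rat (f : Finset (Fin (n + 1)) → ℚ) (hf : f ∈ D.cpx.cycles ℚ (d + 1)) : f = 0 := by
  classical
  set T := univ.filter fun s => s ∈ D.cpx.faces ∧ s.card = d + 1 with hT
  -- extension by zero
  let a : (T → ℚ) →ₗ[ℚ] (Finset (Fin (n + 1)) → ℚ) :=
    { toFun := fun u s => if h : s ∈ T then u ⟨s, h⟩ else 0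
      map_add' := by
        intro u v
        funext s
        by_cases h : s ∈ T <;> simp [h]
      map_smul' := by
        intro c u
        funext s
        by_cases h : s ∈ T <;> simp [h] }
  let r : (Finset (Fin (n + 1)) → ℚ) →ₗ[ℚ] (P n d → ℚ) := LinearMap.funLeft ℚ ℚ (fun s => s.1)
  let Ψ : (T → ℚ) →ₗ[ℚ] (P n d → ℚ) := r ∘ₗ (bd ℚ) ∘ₗ a
  have ha : ∀ g ∈ D.cpx.chains ℚ (d + 1), a (fun s => g s.1) = g := by
    intro g hg
    funext s
    by_cases h : s ∈ T
    · simp [a, h]
    · have : g s = 0 := by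
        by_contra hne
        exact h (mem_filter.2 ⟨mem_univ _, hg s hne⟩)
      simp [a, h, this]
  have hsurj : Function.Surjective Ψ := by
    intro g
    let g' : Finset (Fin (n + 1)) → ℚ := fun s => if h : s ∈ P n d then g ⟨s, h⟩ else 0
    have hcyc : bd ℚ (cone ℚ g') ∈ D.cpx.cycles ℚ d := by
      have h1 : bd ℚ (cone ℚ g') = ∑ τ ∈ P n d, g' τ • zc ℚ τ := by
        rw [cone_eq_sum g' (d := d), map_sum]
        · exact sum_congr rfl fun τ _ => by rw [map_smul, zc]
        · intro s hs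
          by_contra hne
          apply hs
          have : s ∉ P n d := fun h => hne (mem_P.1 h).2
          simp [g', this]
      rw [h1]
      exact Submodule.sum_mem _ fun τ hτ => Submodule.smul_mem _ _
        (D.zc_mem_cycles τ (mem_P.1 hτ).1 (mem_P.1 hτ).2)
    obtain ⟨e, he, hbe⟩ := mem_boundaries.1 (D.mid_rat G hcyc)
    refine ⟨fun s => e s.1, ?_⟩
    funext s
    have hs := mem_P.1 s.2
    simp only [Ψ, LinearMap.comp_apply, r, LinearMap.funLeft_apply]
    rw [ha e he, hbe, bd_cone_of_notMem _ _ hs.1]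
    have : s.1 ∈ P n d := s.2
    simp [g', this]
  have hinj : Function.Injective Ψ := by
    rw [LinearMap.injective_iff_surjective_of_finrank_eq_finrank]
    · exact hsurj
    · rw [Module.finrank_fintype_fun_eq_card, Module.finrank_fintype_fun_eq_card,
        Fintype.card_coe, Fintype.card_coe]
      exact D.card_top
  rw [mem_cycles] at hf
  have h0 : Ψ (fun s => f s.1) = Ψ 0 := by
    rw [map_zero]
    simp only [Ψ, LinearMap.comp_apply]
    rw [ha f hf.1, hf.2, map_zero]
  have h1 := hinj h0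
  have h2 := ha f hf.1
  rw [h1, map_zero] at h2
  exact h2.symm

/-- `ℚ`-acyclicity -/
theorem qAcyclic : D.cpx.QAcyclic := by
  intro j
  rcases lt_trichotomy j d with h | h | h
  · exact subsingleton_H (D.low j h)
  · subst h
    exact subsingleton_H (D.mid_rat G)
  · rcases Nat.lt_or_ge (d + 1) j with h' | h'
    · exact subsingleton_H (D.high j h')
    · obtain rfl : j = d + 1 := by omega
      refine subsingleton_H fun f hf => ?_
      rw [D.top_rat G f hf]
      exact zero_mem _

/-- the comparison map -/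
noncomputable def Phi : (Finset (Fin (n + 1)) → ℤ) →ₗ[ℤ] (∀ j, ZMod (G.m j)) :=
  ∑ i, ((-1 : ℤ) ^ D.δ i • (LinearMap.proj (D.face i) :
    (Finset (Fin (n + 1)) → ℤ) →ₗ[ℤ] ℤ)).smulRight
      (Pi.single (G.jj i) (G.c i : ZMod (G.m (G.jj i))) : ∀ j, ZMod (G.m j))

lemma Phi_apply (f : Finset (Fin (n + 1)) → ℤ) :
    D.Phi G f = ∑ i, ((-1 : ℤ) ^ D.δ i * f (D.face i)) •
      (Pi.single (G.jj i) (G.c i : ZMod (G.m (G.jj i))) : ∀ j, ZMod (G.m j)) := by
  rw [Phi, LinearMap.sum_apply]
  exact sum_congr rfl fun i _ => by simp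

lemma Phi_bd (g : Finset (Fin (n + 1)) → ℤ) (hg : g ∈ D.cpx.chains ℤ (d + 1)) :
    D.Phi G (bd ℤ g) = 0 := by
  classical
  have h1 : g = ∑ s, g s • (Pi.single s 1 : Finset (Fin (n + 1)) → ℤ) := by
    funext t
    rw [Finset.sum_apply, sum_eq_single t]
    · simp
    · intro s _ hs
      simp [Pi.single_eq_of_ne (Ne.symm hs)]
    · intro h
      exact absurd (mem_univ _) h
  rw [h1, map_sum, map_sum]
  refine sum_eq_zero fun s _ => ?_
  rw [map_smul, map_smul]
  by_cases hs : g s = 0
  · rw [hs, zero_smul]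
  obtain ⟨hsf, hsc⟩ := hg s hs
  suffices h : D.Phi G (bd ℤ (Pi.single s 1)) = 0 by rw [h, smul_zero]
  rw [D.Phi_apply G]
  rcases (D.mem_faces s).1 hsf with h | ⟨_, h | ⟨k, rfl⟩⟩
  · omega
  · refine sum_eq_zero fun i _ => ?_
    rw [bd_single_of_ne, mul_zero, zero_smul]
    intro v hv hins
    have hv0 : v = 0 := by
      have : (0 : Fin (n + 1)) ∈ insert v (D.face i) := hins ▸ h.1
      rcases mem_insert.1 this with h' | h'
      · exact h'.symm
      · exact absurd h' (D.face_zero i)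
    subst hv0
    exact h.2 i (by rw [← hins, erase_insert hv])
  · refine Eq.trans ?_ (G.rel k)
    refine sum_congr rfl fun i _ => ?_
    rw [D.bd_rel_face]
    by_cases hN : D.N i k
    · simp only [hN, if_true]
      rw [← pow_add, ← two_mul, pow_mul]
      simp
    · simp [hN]

lemma boundary_of_Phi (f : Finset (Fin (n + 1)) → ℤ) (hf : f ∈ D.cpx.cycles ℤ d)
    (h0 : D.Phi G f = 0) : f ∈ D.cpx.boundaries ℤ d := by
  classical
  have hz := G.gen _ (D.z ℤ) (by
    intro k
    refine Eq.trans (sum_congr rfl fun i _ => ?_) (D.z_rel (A := ℤ) k)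
    by_cases h : D.N i k
    · rw [if_pos h, if_pos h]
    · rw [if_neg h, if_neg h])
  rw [← Submodule.Quotient.mk_eq_zero, ← Submodule.mkQ_apply, D.mk_cycle f hf]
  have h1 : ∀ i, ((-1 : ℤ) ^ D.δ i * f (D.face i)) • D.z ℤ i
      = ((-1 : ℤ) ^ D.δ i * f (D.face i) * G.c i) • D.z ℤ (G.base (G.jj i)) := by
    intro i
    rw [hz.1 i, smul_smul]
  rw [sum_congr rfl fun i _ => h1 i]
  rw [← sum_fiberwise (s := univ) (g := G.jj)]
  refine sum_eq_zero fun j _ => ?_
  have h2 : ∑ i with G.jj i = j, ((-1 : ℤ) ^ D.δ i * f (D.face i) * G.c i) •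
        D.z ℤ (G.base (G.jj i))
      = (∑ i with G.jj i = j, ((-1 : ℤ) ^ D.δ i * f (D.face i) * G.c i)) •
        D.z ℤ (G.base j) := by
    rw [sum_smul]
    refine sum_congr rfl fun i hi => ?_
    rw [(mem_filter.1 hi).2]
  rw [h2]
  have h3 : ((∑ i with G.jj i = j, ((-1 : ℤ) ^ D.δ i * f (D.face i) * G.c i) : ℤ) :
      ZMod (G.m j)) = 0 := by
    have h4 := congrFun h0 j
    rw [D.Phi_apply G, Finset.sum_apply, Pi.zero_apply] at h4
    rw [← h4, Int.cast_sum, sum_filter]
    refine sum_congr rfl fun i _ => ?_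
    by_cases hi : G.jj i = j
    · subst hi
      simp
    · rw [if_neg hi]
      simp [Pi.single_eq_of_ne (Ne.symm hi)]
  rw [ZMod.intCast_zmod_eq_zero_iff_dvd] at h3
  obtain ⟨q, hq⟩ := h3
  rw [hq, mul_comm, mul_smul, natCast_zsmul, hz.2 j, smul_zero]

lemma Phi_zc (i : ι) : D.Phi G (zc ℤ (D.face i)) = (-1 : ℤ) ^ D.δ i •
    (Pi.single (G.jj i) (G.c i : ZMod (G.m (G.jj i))) : ∀ j, ZMod (G.m j)) := by
  rw [D.Phi_apply G, sum_eq_single i]
  · rw [zc_apply _ _ (D.face_zero i)]
    simp
  · intro k _ hk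
    rw [zc_apply _ _ (D.face_zero k), Pi.single_eq_of_ne, mul_zero, zero_smul]
    intro h
    exact hk (D.face_inj h)
  · intro h
    exact absurd (mem_univ _) h

/-- the homology group in degree `d - 1` -/
theorem homology_iso : Nonempty (D.cpx.H ℤ d ≃+ ∀ j, ZMod (G.m j)) := by
  classical
  let Φ : D.cpx.cycles ℤ d →ₗ[ℤ] (∀ j, ZMod (G.m j)) :=
    (D.Phi G) ∘ₗ (D.cpx.cycles ℤ d).subtype
  have hker : LinearMap.ker Φ = (D.cpx.boundaries ℤ d).submoduleOf (D.cpx.cycles ℤ d) := by
    ext ⟨f, hf⟩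
    rw [LinearMap.mem_ker]
    constructor
    · intro h
      exact D.boundary_of_Phi G f hf h
    · intro h
      obtain ⟨g, hg, hgf⟩ := mem_boundaries.1 (show f ∈ D.cpx.boundaries ℤ d from h)
      change D.Phi G f = 0
      rw [← hgf]
      exact D.Phi_bd G g hg
  have hsurj : Function.Surjective Φ := by
    intro w
    have hmem : (∑ j, (((w j).cast : ℤ) * (-1) ^ D.δ (G.base j)) • zc ℤ (D.face (G.base j)))
        ∈ D.cpx.cycles ℤ d :=
      Submodule.sum_mem _ fun j _ => Submodule.smul_mem _ _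
        (D.zc_mem_cycles _ (D.face_zero _) (D.face_card _))
    refine ⟨⟨_, hmem⟩, ?_⟩
    change D.Phi G (∑ j, (((w j).cast : ℤ) * (-1) ^ D.δ (G.base j)) •
      zc ℤ (D.face (G.base j))) = w
    rw [map_sum]
    funext j
    rw [Finset.sum_apply, sum_eq_single j]
    · rw [map_smul, D.Phi_zc G, smul_smul, mul_assoc, ← pow_add, ← two_mul, pow_mul]
      have hc := G.c_base j
      have hj := G.jj_base j
      simp only [even_two, Even.neg_pow, one_pow, mul_one, Pi.smul_apply]
      rw [hc]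
      have : (Pi.single (G.jj (G.base j)) ((1 : ℤ) : ZMod (G.m (G.jj (G.base j)))) :
          ∀ j, ZMod (G.m j)) j = 1 := by
        generalize G.jj (G.base j) = j' at hj
        subst hj
        simp
      rw [this]
      simp
    · intro j' _ hne
      rw [map_smul, D.Phi_zc G, Pi.smul_apply, Pi.smul_apply, Pi.single_eq_of_ne, smul_zero,
        smul_zero]
      rw [G.jj_base]
      exact Ne.symm hne
    · intro h
      exact absurd (mem_univ _) h
  have e1 := (Submodule.quotEquivOfEq _ _ hker.symm).trans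
    (LinearMap.quotKerEquivOfSurjective Φ hsurj)
  exact ⟨e1.toAddEquiv⟩

end Dat

end Pool.Agent.Lib.MP_5453bf_gt
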