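import Pool.Agent.Lib.MP_5453bf_gt.Kinds
import Pool.Agent.Lib.MP_5453bf_gt.Pres

/-!
# Sites, blocks and the combinatorial data
-/

set_option autoImplicit false

namespace Pool.Agent.Lib.MP_5453bf_gt

open Finset

/-- a family of moduli together with an arrangement of their binary digits on a line -/
structure Blk where
  r : ℕ
  m : Fin r → ℕ
  hm : ∀ j, 1 < m j
  off : Fin r → ℕ
  N : ℕ
  hoff : ∀ j i, i < (m j).size → off j + i < N
  hinj : ∀ j i j' i', i < (m j).size → i' < (m j').size → off j + i = off j' + i' →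
    j = j' ∧ i = i'

namespace Blk

variable (b : Blk)

/-- which gadget pieces are present -/
def act (x : Fin b.r × ℕ × Fin 11) : Prop :=
  x.2.1 < (b.m x.1).size ∧ (x.2.2.val < 3 ∨ (x.2.2.val < 10 ∧ x.2.1 + 1 < (b.m x.1).size) ∨
    (x.2.2.val = 10 ∧ (b.m x.1).testBit x.2.1 = true))

instance (x : Fin b.r × ℕ × Fin 11) : Decidable (b.act x) := by unfold act; infer_instance

/-- all gadget pieces -/
def idx : Finset (Fin b.r × ℕ × Fin 11) :=
  (univ ×ˢ (range (univ.sup fun j => (b.m j).size) ×ˢ univ)).filter b.act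

lemma mem_idx {x : Fin b.r × ℕ × Fin 11} : x ∈ b.idx ↔ b.act x := by
  rw [idx, mem_filter, mem_product, mem_product]
  constructor
  · exact fun h => h.2
  · intro h
    refine ⟨⟨mem_univ _, mem_range.2 (lt_of_lt_of_le h.1 ?_), mem_univ _⟩, h⟩
    exact le_sup (f := fun j => (b.m j).size) (mem_univ x.1)

/-- incidence -/
def Nb (x y : Fin b.r × ℕ × Fin 11) : Prop :=
  x.1 = y.1 ∧ ((x.2.1 + sh x.2.2 = y.2.1 ∧ same x.2.2 y.2.2) ∨
    (x.2.1 + sh x.2.2 = y.2.1 + 1 ∧ next x.2.2 y.2.2))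

instance (x y : Fin b.r × ℕ × Fin 11) : Decidable (b.Nb x y) := by unfold Nb; infer_instance

/-- index of `k`'s private window -/
def κof : Fin 11 → Fin 11 := ![3, 1, 1, 0, 3, 7, 4, 5, 6, 8, 10]

lemma same_κof : ∀ k, same k (κof k) := by decide
lemma same_inj : ∀ k k', om k = om k' → same k' (κof k) → k = k' := by decide
lemma no_next_κof : ∀ k k', om k = 0 → ¬ next k' (κof k) := by decide
lemma lab_inj : ∀ κ κ', ra κ = ra κ' → rb κ = rb κ' → rc κ = rc κ' → κ = κ' := by decide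
lemma sh_pos : ∀ k : Fin 11, sh k = 0 ∨ (sh k = 1 ∧ 3 ≤ k.val ∧ k.val < 10) := by decide
lemma next_cases : ∀ k κ : Fin 11, next k κ → (sh k = 0 ∧ 3 ≤ κ.val ∧ κ.val < 10) ∨ sh k = 1 := by
  decide

variable (p : Par)

lemma pos_inj_faces {p : Par} {T T' : ℕ} {k k' : Fin 11} (hT : T + 1 ≤ p.B) (hT' : T' + 1 ≤ p.B)
    (h : p.faceS T k = p.faceS T' k') : T = T' ∧ k = k' := by
  have hd := p.hd
  have hsh : sh k ≤ 1 := by
    rcases sh_pos k with h | h <;> omega
  have hsh' : sh k' ≤ 1 := by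
    rcases sh_pos k' with h | h <;> omega
  -- the private window of `k`
  have h1 : Par.nbT T k (T + sh k) (κof k) := Or.inl ⟨rfl, same_κof k⟩
  obtain ⟨v, hv, hvi, hvc⟩ := Par.spec (p := p) h1
  have hsub : p.faceS T' k' ⊆ p.relS (T + sh k) (κof k) := by
    rw [← h, ← hvi]
    exact subset_insert _ _
  have h2 := Par.spec' (p := p) (by omega) (by omega) hsub
  obtain ⟨v', hv', hvi', hvc'⟩ := Par.spec (p := p) h2
  have hvv : v = v' := by
    have : v ∈ insert v' (p.faceS T' k') := by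
      rw [hvi', ← hvi]
      exact mem_insert_self _ _
    rcases mem_insert.1 this with h' | h'
    · exact h'
    · rw [← h] at h'
      exact absurd h' hv
  subst hvv
  have hdir : p.dirS T k = p.dirS T' k' := by
    rw [← hvc, ← hvc', h]
  rw [Par.dirS, Par.dirS] at hdir
  have hp1 := posn_le hd (om k)
  have hp2 := posn_le hd (om k')
  rcases h2 with ⟨hT2, hs⟩ | ⟨hT2, hn⟩
  · rw [hT2] at hdir
    have hpos : posn p.d (om k) = posn p.d (om k') :=
      Par.mod_window (by omega) (by omega) hdir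
    have hom : om k = om k' := by
      rcases om_le k with h3 | h3 | h3 <;> rcases om_le k' with h4 | h4 | h4 <;>
        rw [h3, h4] at hpos ⊢ <;> simp [posn] at hpos <;> omega
    have hk := same_inj k k' hom hs
    subst hk
    exact ⟨by omega, rfl⟩
  · exfalso
    have ho' : posn p.d (om k') = p.d := by rw [hn.1]; simp [posn]
    rw [hT2, ho', show T + sh k + 1 + p.d = T + sh k + 0 + (p.d + 1) by omega,
      Nat.add_mod_right] at hdir
    have hpos : posn p.d (om k) = 0 := Par.mod_window (by omega) (by omega) hdir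
    have hom : om k = 0 := by
      rcases om_le k with h3 | h3 | h3
      · exact h3
      · rw [h3] at hpos
        simp [posn] at hpos
      · rw [h3] at hpos
        simp [posn] at hpos
        omega
    exact no_next_κof k k' hom hn

lemma pos_inj_rels {p : Par} {T T' : ℕ} {κ κ' : Fin 11} (hT : T ≤ p.B) (hT' : T' ≤ p.B)
    (h : p.relS T κ = p.relS T' κ') : T = T' ∧ κ = κ' := by
  have hd := p.hd
  have h1 : p.part T (rL p.d κ) 1 ⊆ p.full T' (rL p.d κ') := by
    have : p.relS T κ = insert (p.vtx T (rL p.d κ) 1) (p.part T (rL p.d κ) 1) :=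
      (Par.insert_part _ _ _ (by omega)).symm
    rw [← Par.relS, ← h, this]
    exact subset_insert _ _
  have h0 : p.part T (rL p.d κ) 0 ⊆ p.full T' (rL p.d κ') := by
    have : p.relS T κ = insert (p.vtx T (rL p.d κ) 0) (p.part T (rL p.d κ) 0) :=
      (Par.insert_part _ _ _ (by omega)).symm
    rw [← Par.relS, ← h, this]
    exact subset_insert _ _
  have k1 := Par.key (rL_lt p.d κ) (rL_lt p.d κ') (by omega) hT hT' h1
  have k0 := Par.key (rL_lt p.d κ) (rL_lt p.d κ') (by omega) hT hT' h0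
  obtain ⟨i1, hi1, he1, hl1⟩ := k1 0 (by omega) (by omega)
  obtain ⟨i2, hi2, he2, hl2⟩ := k1 p.d le_rfl (by omega)
  obtain ⟨i3, hi3, he3, hl3⟩ := k0 1 (by omega) (by omega)
  have hTT : T = T' := by omega
  refine ⟨hTT, lab_inj _ _ ?_ ?_ ?_⟩
  · obtain rfl : i1 = 0 := by omega
    simpa [rL, lab] using hl1
  · obtain rfl : i3 = 1 := by omega
    simpa [rL, lab] using hl3
  · obtain rfl : i2 = p.d := by omega
    rw [rL, rL, lab, lab, if_neg (by omega), if_neg (by omega), if_pos rfl,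
      if_neg (by omega), if_neg (by omega), if_pos rfl] at hl2
    exact hl2

lemma site_lt {x : Fin b.r × ℕ × Fin 11} (hx : x ∈ b.idx) : b.off x.1 + x.2.1 < b.N :=
  b.hoff _ _ (b.mem_idx.1 hx).1

lemma succ_site {x : Fin b.r × ℕ × Fin 11} (hx : x ∈ b.idx) (h3 : 3 ≤ x.2.2.val)
    (h10 : x.2.2.val < 10) : x.2.1 + 1 < (b.m x.1).size := by
  have h := (b.mem_idx.1 hx).2
  omega

/-- the combinatorial data -/
def dat (hB : b.N ≤ p.B) : Dat p.n p.d {x // x ∈ b.idx} where
  face x := p.faceS (b.off x.1.1 + x.1.2.1) x.1.2.2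
  rel x := p.relS (b.off x.1.1 + x.1.2.1) x.1.2.2
  face_card x := Par.part_card _ _ (fL_lt _ _) _ (posn_le p.hd _)
  rel_card x := Par.full_card _ _ (rL_lt _ _)
  face_zero x := Par.part_zero _ _ (fL_lt _ _) _
  rel_zero x := Par.full_zero _ _ (rL_lt _ _)
  face_inj := by
    rintro ⟨⟨j, i, k⟩, hx⟩ ⟨⟨j', i', k'⟩, hx'⟩ h
    have h1 : b.off j + i < b.N := b.site_lt hx
    have h2 : b.off j' + i' < b.N := b.site_lt hx'
    obtain ⟨h3, h4⟩ := pos_inj_faces (p := p) (T := b.off j + i) (T' := b.off j' + i')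
      (k := k) (k' := k') (by omega) (by omega) h
    obtain ⟨h5, h6⟩ := b.hinj _ _ _ _ (b.mem_idx.1 hx).1 (b.mem_idx.1 hx').1 h3
    simp only at h4 h5 h6
    subst h4
    subst h5
    subst h6
    rfl
  rel_inj := by
    rintro ⟨⟨j, i, k⟩, hx⟩ ⟨⟨j', i', k'⟩, hx'⟩ h
    have h1 : b.off j + i < b.N := b.site_lt hx
    have h2 : b.off j' + i' < b.N := b.site_lt hx'
    obtain ⟨h3, h4⟩ := pos_inj_rels (p := p) (T := b.off j + i) (T' := b.off j' + i')
      (κ := k) (κ' := k') (by omega) (by omega) h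
    obtain ⟨h5, h6⟩ := b.hinj _ _ _ _ (b.mem_idx.1 hx).1 (b.mem_idx.1 hx').1 h3
    simp only at h4 h5 h6
    subst h4
    subst h5
    subst h6
    rfl
  one_le := by have := p.hd; omega
  δ x := p.dirS (b.off x.1.1 + x.1.2.1) x.1.2.2
  N x y := b.Nb x.1 y.1
  N_spec := by
    rintro ⟨⟨j, i, k⟩, hx⟩ ⟨⟨j', i', k'⟩, hx'⟩ h
    apply Par.spec
    obtain ⟨hj, h⟩ := h
    simp only at hj h
    subst hj
    rcases h with h | h
    · exact Or.inl ⟨by simp only; omega, h.2⟩
    · exact Or.inr ⟨by simp only; omega, h.2⟩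
  N_spec' := by
    rintro ⟨⟨j, i, k⟩, hx⟩ ⟨⟨j', i', k'⟩, hx'⟩ h v hv hins
    apply h
    have h1 := b.site_lt hx
    have h2 := b.site_lt hx'
    have hsh := sh_pos k
    simp only at h1 h2
    have hs1 := (b.mem_idx.1 hx).1
    have hs2 := (b.mem_idx.1 hx').1
    simp only at hs1 hs2
    have h3 : Par.nbT (b.off j + i) k (b.off j' + i') k' := by
      apply Par.spec' (p := p) (by omega) (by omega)
      have : p.relS (b.off j' + i') k' = insert v (p.faceS (b.off j + i) k) := hins.symm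
      rw [this]
      exact subset_insert _ _
    rcases h3 with ⟨hT, hs⟩ | ⟨hT, hn⟩
    · rcases hsh with h0 | ⟨h0, hk3, hk10⟩
      · obtain ⟨h5, h6⟩ := b.hinj j i j' i' hs1 hs2 (by omega)
        exact ⟨h5, Or.inl ⟨by simp only; omega, hs⟩⟩
      · have hs3 := b.succ_site hx hk3 hk10
        obtain ⟨h5, h6⟩ := b.hinj j (i + 1) j' i' hs3 hs2 (by omega)
        exact ⟨h5, Or.inl ⟨by simp only; omega, hs⟩⟩
    · rcases next_cases k k' hn with ⟨h0, hk3, hk10⟩ | h0
      · have hs3 := b.succ_site hx' hk3 hk10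
        obtain ⟨h5, h6⟩ := b.hinj j i j' (i' + 1) hs1 hs3 (by omega)
        exact ⟨h5, Or.inr ⟨by simp only; omega, hn⟩⟩
      · obtain ⟨h5, h6⟩ := b.hinj j i j' i' hs1 hs2 (by omega)
        exact ⟨h5, Or.inr ⟨by simp only; omega, hn⟩⟩

end Blk

end Pool.Agent.Lib.MP_5453bf_gt
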