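import Mathlib

/-!
# Coding of windows of a long strip into few vertices
-/

set_option autoImplicit false

namespace Pool.Agent.Lib.MP_5453bf_gt

open Finset

/-- parameters of the coding -/
structure Par where
  d : ℕ
  hd : 2 ≤ d
  Q : ℕ → ℕ
  Qm : ℕ
  K : ℕ
  B : ℕ
  hK0 : 0 < K
  hQm : ∀ r, r ≤ d → Q r ≤ Qm
  hK : ∀ r, r ≤ d → K ≤ Q r
  hcop : ∀ r, r ≤ d → ∀ r', r' ≤ d → r ≠ r' → Nat.Coprime (Q r) (Q r')
  hB : B + d < K ^ d

namespace Par

variable (p : Par)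

/-- number of vertices minus one -/
def n : ℕ := (p.d + 1) * (14 * p.Qm)

/-- the low part of the code -/
def low (t l : ℕ) : ℕ :=
  (((t / (p.d + 1)) % 2) * p.Qm + t % p.Q (t % (p.d + 1))) * 7 + l

/-- the code of the vertex with index `t` and label `l` -/
def enc (t l : ℕ) : ℕ := 1 + ((t % (p.d + 1)) * (14 * p.Qm) + p.low t l)

lemma dir_le (t : ℕ) : t % (p.d + 1) ≤ p.d := Nat.lt_succ_iff.1 (Nat.mod_lt _ (Nat.succ_pos _))

lemma Q_pos (r : ℕ) (hr : r ≤ p.d) : 0 < p.Q r := lt_of_lt_of_le p.hK0 (p.hK r hr)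

lemma res_lt (t : ℕ) : t % p.Q (t % (p.d + 1)) < p.Qm :=
  lt_of_lt_of_le (Nat.mod_lt _ (p.Q_pos _ (p.dir_le t))) (p.hQm _ (p.dir_le t))

lemma low_lt (t l : ℕ) (hl : l < 7) : p.low t l < 14 * p.Qm := by
  have h1 := p.res_lt t
  have h2 : (t / (p.d + 1)) % 2 < 2 := Nat.mod_lt _ (by norm_num)
  have h3 : ((t / (p.d + 1)) % 2) * p.Qm ≤ 1 * p.Qm := Nat.mul_le_mul_right _ (by omega)
  rw [low]
  omega

lemma enc_lt (t l : ℕ) (hl : l < 7) : p.enc t l < p.n + 1 := by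
  have h1 := p.low_lt t l hl
  have h2 := p.dir_le t
  have h3 : (t % (p.d + 1)) * (14 * p.Qm) ≤ p.d * (14 * p.Qm) := Nat.mul_le_mul_right _ h2
  have h4 : p.n = p.d * (14 * p.Qm) + 14 * p.Qm := by rw [n]; ring
  rw [enc, h4]
  omega

lemma enc_pos (t l : ℕ) : 0 < p.enc t l := by
  rw [enc]
  omega

lemma enc_lt_enc (t l t' l' : ℕ) (hl : l < 7)
    (h : t % (p.d + 1) < t' % (p.d + 1)) : p.enc t l < p.enc t' l' := by
  have h1 := p.low_lt t l hl
  have h2 : (t % (p.d + 1) + 1) * (14 * p.Qm) ≤ (t' % (p.d + 1)) * (14 * p.Qm) :=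
    Nat.mul_le_mul_right _ h
  have h3 : (t % (p.d + 1) + 1) * (14 * p.Qm) = (t % (p.d + 1)) * (14 * p.Qm) + 14 * p.Qm := by
    ring
  rw [enc, enc]
  omega

lemma enc_inj {t l t' l' : ℕ} (hl : l < 7) (hl' : l' < 7) (h : p.enc t l = p.enc t' l') :
    t % (p.d + 1) = t' % (p.d + 1) ∧ (t / (p.d + 1)) % 2 = (t' / (p.d + 1)) % 2 ∧
      t % p.Q (t % (p.d + 1)) = t' % p.Q (t % (p.d + 1)) ∧ l = l' := by
  have hdir : t % (p.d + 1) = t' % (p.d + 1) := by
    rcases lt_trichotomy (t % (p.d + 1)) (t' % (p.d + 1)) with h1 | h1 | h1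
    · exact absurd h (p.enc_lt_enc t l t' l' hl h1).ne
    · exact h1
    · exact absurd h (p.enc_lt_enc t' l' t l hl' h1).ne'
  have hlow : p.low t l = p.low t' l' := by
    rw [enc, enc, hdir] at h
    omega
  rw [low, low] at hlow
  have h7 : ((t / (p.d + 1)) % 2) * p.Qm + t % p.Q (t % (p.d + 1))
      = ((t' / (p.d + 1)) % 2) * p.Qm + t' % p.Q (t' % (p.d + 1)) ∧ l = l' := by omega
  have h1 := p.res_lt t
  have h2 := p.res_lt t'
  have h3 : (t / (p.d + 1)) % 2 < 2 := Nat.mod_lt _ (by norm_num)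
  have h4 : (t' / (p.d + 1)) % 2 < 2 := Nat.mod_lt _ (by norm_num)
  have hpar : (t / (p.d + 1)) % 2 = (t' / (p.d + 1)) % 2 := by
    generalize (t / (p.d + 1)) % 2 = x at *
    generalize (t' / (p.d + 1)) % 2 = y at *
    interval_cases x <;> interval_cases y <;> simp at h7 ⊢ <;> omega
  refine ⟨hdir, hpar, ?_, h7.2⟩
  rw [hpar, ← hdir] at h7
  omega

/-- equal direction and parity mean congruence mod `2 (d+1)` -/
lemma two_dvd {t t' : ℕ} (h1 : t % (p.d + 1) = t' % (p.d + 1))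
    (h2 : (t / (p.d + 1)) % 2 = (t' / (p.d + 1)) % 2) :
    (2 * (p.d + 1 : ℤ)) ∣ (t : ℤ) - t' := by
  have e1 := Nat.div_add_mod t (p.d + 1)
  have e2 := Nat.div_add_mod t' (p.d + 1)
  have e3 := Nat.div_add_mod (t / (p.d + 1)) 2
  have e4 := Nat.div_add_mod (t' / (p.d + 1)) 2
  refine ⟨(t / (p.d + 1) / 2 : ℕ) - (t' / (p.d + 1) / 2 : ℕ), ?_⟩
  have e1' : (t : ℤ) = (p.d + 1) * (t / (p.d + 1) : ℕ) + (t % (p.d + 1) : ℕ) := by
    exact_mod_cast e1.symm
  have e2' : (t' : ℤ) = (p.d + 1) * (t' / (p.d + 1) : ℕ) + (t' % (p.d + 1) : ℕ) := by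
    exact_mod_cast e2.symm
  have e3' : ((t / (p.d + 1) : ℕ) : ℤ) = 2 * (t / (p.d + 1) / 2 : ℕ) + (t / (p.d + 1) % 2 : ℕ) := by
    exact_mod_cast e3.symm
  have e4' : ((t' / (p.d + 1) : ℕ) : ℤ)
      = 2 * (t' / (p.d + 1) / 2 : ℕ) + (t' / (p.d + 1) % 2 : ℕ) := by
    exact_mod_cast e4.symm
  rw [e1', e2', e3', e4', h1, h2]
  ring

lemma Q_dvd {t t' q : ℕ} (h : t % q = t' % q) : (q : ℤ) ∣ (t : ℤ) - t' := by
  have := (Nat.modEq_iff_dvd (n := q) (a := t') (b := t)).1 h.symm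
  exact this

/-- the vertex at position `i` of the window starting at `T`, with labelling `L` -/
def vtx (T : ℕ) (L : ℕ → ℕ) (i : ℕ) : Fin (p.n + 1) := Fin.ofNat _ (p.enc (T + i) (L i))

lemma vtx_val (T : ℕ) (L : ℕ → ℕ) (hL : ∀ i, L i < 7) (i : ℕ) :
    (p.vtx T L i).val = p.enc (T + i) (L i) := by
  rw [vtx, Fin.val_ofNat, Nat.mod_eq_of_lt (p.enc_lt _ _ (hL i))]

lemma vtx_ne_zero (T : ℕ) (L : ℕ → ℕ) (hL : ∀ i, L i < 7) (i : ℕ) : p.vtx T L i ≠ 0 := by
  intro h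
  have h1 := p.vtx_val T L hL i
  rw [h] at h1
  have := p.enc_pos (T + i) (L i)
  simp at h1
  omega

lemma vtx_eq {T T' : ℕ} {L L' : ℕ → ℕ} (hL : ∀ i, L i < 7) (hL' : ∀ i, L' i < 7) {i i' : ℕ}
    (h : p.vtx T L i = p.vtx T' L' i') : p.enc (T + i) (L i) = p.enc (T' + i') (L' i') := by
  rw [← p.vtx_val T L hL, ← p.vtx_val T' L' hL', h]

lemma mod_window {m T i i' : ℕ} (hi : i < m) (hi' : i' < m) (h : (T + i) % m = (T + i') % m) :
    i = i' := by
  have h1 : i ≡ i' [MOD m] := Nat.ModEq.add_left_cancel' T h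
  rw [Nat.ModEq, Nat.mod_eq_of_lt hi, Nat.mod_eq_of_lt hi'] at h1
  exact h1

lemma vtx_inj {T : ℕ} {L L' : ℕ → ℕ} (hL : ∀ i, L i < 7) (hL' : ∀ i, L' i < 7) {i i' : ℕ}
    (hi : i < p.d + 1) (hi' : i' < p.d + 1) (h : p.vtx T L i = p.vtx T L' i') : i = i' :=
  mod_window hi hi' (p.enc_inj (hL i) (hL' i') (p.vtx_eq hL hL' h)).1

/-- the full simplex on the window starting at `T` -/
def full (T : ℕ) (L : ℕ → ℕ) : Finset (Fin (p.n + 1)) := (range (p.d + 1)).image (p.vtx T L)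

/-- the facet omitting position `o` -/
def part (T : ℕ) (L : ℕ → ℕ) (o : ℕ) : Finset (Fin (p.n + 1)) :=
  ((range (p.d + 1)).erase o).image (p.vtx T L)

variable {p}

lemma full_card (T : ℕ) (L : ℕ → ℕ) (hL : ∀ i, L i < 7) : (p.full T L).card = p.d + 1 := by
  rw [full, card_image_of_injOn, card_range]
  intro i hi i' hi' h
  exact p.vtx_inj hL hL (by simpa using hi) (by simpa using hi') h

lemma part_card (T : ℕ) (L : ℕ → ℕ) (hL : ∀ i, L i < 7) (o : ℕ) (ho : o ≤ p.d) :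
    (p.part T L o).card = p.d := by
  rw [part, card_image_of_injOn, card_erase_of_mem (by simpa using Nat.lt_succ_of_le ho),
    card_range]
  · rfl
  intro i hi i' hi' h
  simp only [coe_erase, coe_range, Set.mem_sdiff, Set.mem_Iio] at hi hi'
  exact p.vtx_inj hL hL hi.1 hi'.1 h

lemma full_zero (T : ℕ) (L : ℕ → ℕ) (hL : ∀ i, L i < 7) : (0 : Fin (p.n + 1)) ∉ p.full T L := by
  intro h
  obtain ⟨i, _, hi⟩ := mem_image.1 h
  exact p.vtx_ne_zero T L hL i hi

lemma part_zero (T : ℕ) (L : ℕ → ℕ) (hL : ∀ i, L i < 7) (o : ℕ) :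
    (0 : Fin (p.n + 1)) ∉ p.part T L o := by
  intro h
  obtain ⟨i, _, hi⟩ := mem_image.1 h
  exact p.vtx_ne_zero T L hL i hi

lemma card_dir_lt (m T c : ℕ) (hc : c ≤ m) :
    ((range m).filter fun i => (T + i) % m < c).card = c := by
  rcases Nat.eq_zero_or_pos m with hm | hm
  · subst hm
    simp
    omega
  have hinj : Set.InjOn (fun i => (T + i) % m)
      ((range m).filter fun i => (T + i) % m < c : Finset ℕ) := by
    intro i hi i' hi' h
    simp only [coe_filter, mem_range, Set.mem_ofPred_eq] at hi hi'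
    exact mod_window hi.1 hi'.1 h
  rw [← card_image_of_injOn hinj]
  have : ((range m).filter fun i => (T + i) % m < c).image (fun i => (T + i) % m) = range c := by
    ext r
    simp only [mem_image, mem_filter, mem_range]
    constructor
    · rintro ⟨i, ⟨_, h⟩, rfl⟩
      exact h
    · intro hr
      -- choose i ≡ r - T mod m
      refine ⟨(r + (m - T % m)) % m, ⟨Nat.mod_lt _ hm, ?_⟩, ?_⟩
      all_goals
        have h1 : (T + (r + (m - T % m)) % m) % m = r := by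
          rw [Nat.add_mod_mod]
          have h2 : T + (r + (m - T % m)) = r + m * (T / m + 1) := by
            have h3 := Nat.div_add_mod T m
            have h4 : T % m < m := Nat.mod_lt _ hm
            have h5 : m * (T / m + 1) = m * (T / m) + m := by ring
            omega
          rw [h2, Nat.add_mul_mod_self_left, Nat.mod_eq_of_lt (by omega)]
        first
          | (rw [h1]; exact hr)
          | exact h1
  rw [this, card_range]

lemma insert_part (T : ℕ) (L : ℕ → ℕ) (o : ℕ) (ho : o ≤ p.d) :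
    insert (p.vtx T L o) (p.part T L o) = p.full T L := by
  rw [part, full, ← image_insert, insert_erase (by simpa using Nat.lt_succ_of_le ho)]

lemma vtx_notMem_part (T : ℕ) (L : ℕ → ℕ) (hL : ∀ i, L i < 7) (o : ℕ) (ho : o ≤ p.d) :
    p.vtx T L o ∉ p.part T L o := by
  intro h
  obtain ⟨i, hi, h'⟩ := mem_image.1 h
  rw [mem_erase, mem_range] at hi
  exact hi.1 (p.vtx_inj hL hL hi.2 (by omega) h')

lemma filter_part (T : ℕ) (L : ℕ → ℕ) (hL : ∀ i, L i < 7) (o : ℕ) (ho : o ≤ p.d) :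
    ((p.part T L o).filter fun u => u < p.vtx T L o).card = (T + o) % (p.d + 1) := by
  have h1 : ((p.part T L o).filter fun u => u < p.vtx T L o)
      = ((range (p.d + 1)).filter fun i => (T + i) % (p.d + 1) < (T + o) % (p.d + 1)).image
        (p.vtx T L) := by
    ext u
    simp only [part, mem_filter, mem_image, mem_erase, mem_range]
    constructor
    · rintro ⟨⟨i, ⟨hio, hi⟩, rfl⟩, hlt⟩
      refine ⟨i, ⟨hi, ?_⟩, rfl⟩
      rw [Fin.lt_def, p.vtx_val T L hL, p.vtx_val T L hL] at hlt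
      by_contra hcon
      rcases lt_or_eq_of_le (not_lt.1 hcon) with h | h
      · have := p.enc_lt_enc (T + o) (L o) (T + i) (L i) (hL o) h
        omega
      · exact hio (mod_window hi (by omega) h.symm)
    · rintro ⟨i, ⟨hi, hlt⟩, rfl⟩
      refine ⟨⟨i, ⟨?_, hi⟩, rfl⟩, ?_⟩
      · rintro rfl
        exact lt_irrefl _ hlt
      · rw [Fin.lt_def, p.vtx_val T L hL, p.vtx_val T L hL]
        exact p.enc_lt_enc _ _ _ _ (hL i) hlt
  rw [h1, card_image_of_injOn, card_dir_lt _ _ _ (Nat.le_succ_of_le (p.dir_le _))]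
  intro i hi i' hi' h
  simp only [coe_filter, mem_range, Set.mem_ofPred_eq] at hi hi'
  exact p.vtx_inj hL hL hi.1 hi'.1 h

/-- **Key lemma**: an inclusion of coded sets comes from an inclusion of windows. -/
lemma key {T0 T : ℕ} {L' L : ℕ → ℕ} (hL' : ∀ i, L' i < 7) (hL : ∀ i, L i < 7) {o : ℕ}
    (ho : o ≤ p.d) (hT0 : T0 ≤ p.B) (hT : T ≤ p.B) (h : p.part T0 L' o ⊆ p.full T L) :
    ∀ i, i ≤ p.d → i ≠ o → ∃ i', i' ≤ p.d ∧ T0 + i = T + i' ∧ L' i = L i' := by
  have hex : ∀ i, i ≤ p.d → i ≠ o → ∃ i', i' ≤ p.d ∧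
      p.vtx T L i' = p.vtx T0 L' i := by
    intro i hi hio
    have h1 : p.vtx T0 L' i ∈ p.full T L :=
      h (mem_image_of_mem _ (mem_erase.2 ⟨hio, mem_range.2 (by omega)⟩))
    obtain ⟨i', hi', he⟩ := mem_image.1 h1
    exact ⟨i', by simpa [Nat.lt_succ_iff] using hi', he⟩
  choose! g hg1 hg2 using hex
  have hinf : ∀ i, i ≤ p.d → i ≠ o →
      (2 * (p.d + 1 : ℤ)) ∣ ((T0 + i : ℕ) : ℤ) - (T + g i : ℕ) ∧
      ((p.Q ((T0 + i) % (p.d + 1)) : ℕ) : ℤ) ∣ ((T0 + i : ℕ) : ℤ) - (T + g i : ℕ) ∧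
      L' i = L (g i) := by
    intro i hi hio
    have h1 := p.enc_inj (hL' i) (hL (g i)) (p.vtx_eq hL' hL (hg2 i hi hio).symm)
    exact ⟨p.two_dvd h1.1 h1.2.1, Q_dvd h1.2.2.1, h1.2.2.2⟩
  -- pick a reference position
  obtain ⟨i0, hi0, hi0o⟩ : ∃ i, i ≤ p.d ∧ i ≠ o := by
    by_cases ho0 : o = 0
    · exact ⟨1, by have := p.hd; omega, by omega⟩
    · exact ⟨0, by omega, Ne.symm ho0⟩
  set κ : ℤ := ((T0 + i0 : ℕ) : ℤ) - (T + g i0 : ℕ) with hκ
  have hconst : ∀ i, i ≤ p.d → i ≠ o → ((T0 + i : ℕ) : ℤ) - (T + g i : ℕ) = κ := by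
    intro i hi hio
    have h1 := (hinf i hi hio).1
    have h2 := (hinf i0 hi0 hi0o).1
    have h3 := dvd_sub h1 h2
    have hgi := hg1 i hi hio
    have hgi0 := hg1 i0 hi0 hi0o
    have h4 : ((T0 + i : ℕ) : ℤ) - (T + g i : ℕ) - (((T0 + i0 : ℕ) : ℤ) - (T + g i0 : ℕ)) = 0 := by
      apply Int.eq_zero_of_abs_lt_dvd h3
      push_cast
      rw [abs_lt]
      constructor <;> omega
    omega
  have hprod : (∏ r ∈ (range (p.d + 1)).erase ((T0 + o) % (p.d + 1)), (p.Q r : ℤ)) ∣ κ := by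
    apply Finset.prod_dvd_of_coprime
    · intro r hr r' hr' hne
      simp only [coe_erase, coe_range, Set.mem_sdiff, Set.mem_Iio] at hr hr'
      exact Nat.isCoprime_iff_coprime.2
        (p.hcop r (by omega) r' (by omega) hne)
    · intro r hr
      rw [mem_erase, mem_range] at hr
      -- position with this direction
      obtain ⟨i, hi, hir⟩ : ∃ i, i ≤ p.d ∧ (T0 + i) % (p.d + 1) = r := by
        have hm : 0 < p.d + 1 := Nat.succ_pos _
        refine ⟨(r + ((p.d + 1) - T0 % (p.d + 1))) % (p.d + 1),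
          Nat.lt_succ_iff.1 (Nat.mod_lt _ hm), ?_⟩
        rw [Nat.add_mod_mod]
        have h3 := Nat.div_add_mod T0 (p.d + 1)
        have h4 : T0 % (p.d + 1) < p.d + 1 := Nat.mod_lt _ hm
        have h5 : (p.d + 1) * (T0 / (p.d + 1) + 1) = (p.d + 1) * (T0 / (p.d + 1)) + (p.d + 1) := by
          ring
        have h2 : T0 + (r + ((p.d + 1) - T0 % (p.d + 1)))
            = r + (p.d + 1) * (T0 / (p.d + 1) + 1) := by omega
        rw [h2, Nat.add_mul_mod_self_left, Nat.mod_eq_of_lt hr.2]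
      have hio : i ≠ o := by
        rintro rfl
        exact hr.1 hir.symm
      have := (hinf i hi hio).2.1
      rw [hconst i hi hio, hir] at this
      exact this
  have hge : ((p.K ^ p.d : ℕ) : ℤ)
      ≤ ∏ r ∈ (range (p.d + 1)).erase ((T0 + o) % (p.d + 1)), (p.Q r : ℤ) := by
    have h1 : p.K ^ p.d ≤ ∏ r ∈ (range (p.d + 1)).erase ((T0 + o) % (p.d + 1)), p.Q r := by
      have hcard : ((range (p.d + 1)).erase ((T0 + o) % (p.d + 1))).card = p.d := by
        rw [card_erase_of_mem (mem_range.2 (Nat.mod_lt _ (Nat.succ_pos _))), card_range]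
        rfl
      calc p.K ^ p.d = p.K ^ ((range (p.d + 1)).erase ((T0 + o) % (p.d + 1))).card := by
            rw [hcard]
        _ = ∏ _r ∈ (range (p.d + 1)).erase ((T0 + o) % (p.d + 1)), p.K := by
            rw [prod_const]
        _ ≤ _ := by
            refine Finset.prod_le_prod (fun _ _ => Nat.zero_le _) fun r hr => ?_
            rw [mem_erase, mem_range] at hr
            exact p.hK r (by omega)
    exact_mod_cast h1
  have hκ0 : κ = 0 := by
    apply Int.eq_zero_of_abs_lt_dvd hprod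
    refine lt_of_lt_of_le ?_ hge
    have hB := p.hB
    have hg0 := hg1 i0 hi0 hi0o
    have h1 : |κ| ≤ ((p.B + p.d : ℕ) : ℤ) := by
      rw [hκ, abs_le]
      push_cast
      constructor <;> omega
    have h2 : ((p.B + p.d : ℕ) : ℤ) < ((p.K ^ p.d : ℕ) : ℤ) := by exact_mod_cast hB
    exact lt_of_le_of_lt h1 h2
  intro i hi hio
  refine ⟨g i, hg1 i hi hio, ?_, (hinf i hi hio).2.2⟩
  have := hconst i hi hio
  rw [hκ0] at this
  omega

end Par

end Pool.Agent.Lib.MP_5453bf_gt
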