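import Pool.Agent.Lib.MP_5453bf_gt.Defs

set_option autoImplicit false

namespace Pool.Agent.Lib.MP_5453bf_gt

open Finset

variable {n : ℕ} {A : Type} [CommRing A]

lemma bd_apply (f : Finset (Fin n) → A) (t : Finset (Fin n)) :
    bd A f t = ∑ v ∈ tᶜ, (-1) ^ (t.filter (fun u => u < v)).card * f (insert v t) := rfl

lemma bd_single_insert (t : Finset (Fin n)) (v : Fin n) (hv : v ∉ t) (a : A) :
    bd A (Pi.single (insert v t) a) t = (-1) ^ (t.filter (fun u => u < v)).card * a := by
  rw [bd_apply, sum_eq_single v]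
  · simp
  · intro w hw hwv
    have hne : insert w t ≠ insert v t := by
      intro h
      have : w ∈ insert v t := h ▸ mem_insert_self w t
      rcases mem_insert.1 this with h1 | h1
      · exact hwv h1
      · exact (mem_compl.1 hw) h1
    rw [Pi.single_eq_of_ne hne, mul_zero]
  · intro h
    exact absurd (mem_compl.2 hv) h

lemma bd_single_of_ne (s t : Finset (Fin n)) (h : ∀ v, v ∉ t → insert v t ≠ s) (a : A) :
    bd A (Pi.single s a) t = 0 := by
  rw [bd_apply]
  refine sum_eq_zero fun v hv => ?_
  rw [Pi.single_eq_of_ne (h v (mem_compl.1 hv)), mul_zero]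

/-- the sign identity behind `∂∂ = 0` -/
lemma sign_swap (t : Finset (Fin n)) (v w : Fin n) (hv : v ∉ t) (hw : w ∉ t) (hvw : v ≠ w) :
    ((-1 : A) ^ (t.filter (fun u => u < v)).card
        * (-1) ^ ((insert v t).filter (fun u => u < w)).card)
      + (-1 : A) ^ (t.filter (fun u => u < w)).card
        * (-1) ^ ((insert w t).filter (fun u => u < v)).card = 0 := by
  rcases lt_or_gt_of_ne hvw with h | h
  · rw [filter_insert, if_pos h, filter_insert, if_neg (not_lt.2 h.le),
      card_insert_of_notMem (by simp [hv])]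
    ring
  · rw [filter_insert, if_neg (not_lt.2 h.le), filter_insert, if_pos h,
      card_insert_of_notMem (by simp [hw])]
    ring

lemma bd_bd (f : Finset (Fin n) → A) : bd A (bd A f) = 0 := by
  funext t
  rw [bd_apply, Pi.zero_apply]
  simp only [bd_apply, mul_sum]
  rw [sum_sigma']
  refine sum_involution (fun p _ => ⟨p.2, p.1⟩) ?_ ?_ ?_ ?_
  · rintro ⟨v, w⟩ h
    simp only [mem_sigma, mem_compl, mem_insert, not_or] at h
    obtain ⟨hv, hwv, hw⟩ := h
    have := sign_swap (A := A) t v w hv hw (Ne.symm hwv)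
    simp only
    rw [insert_comm w v t, ← mul_assoc, ← mul_assoc, ← add_mul, this, zero_mul]
  · rintro ⟨v, w⟩ h _
    simp only [mem_sigma, mem_compl, mem_insert, not_or] at h
    intro heq
    exact h.2.1 (by simpa using (Sigma.mk.inj heq).1)
  · rintro ⟨v, w⟩ h
    simp only [mem_sigma, mem_compl, mem_insert, not_or] at h ⊢
    exact ⟨h.2.2, fun e => h.2.1 e.symm, h.1⟩
  · rintro ⟨v, w⟩ h
    rfl

/-- the cone operator with apex the vertex `0` -/
def cone (A : Type) [CommRing A] :
    (Finset (Fin (n + 1)) → A) →ₗ[A] (Finset (Fin (n + 1)) → A) where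
  toFun f s := if 0 ∈ s then f (s.erase 0) else 0
  map_add' f g := by
    funext s
    simp only [Pi.add_apply]
    split_ifs <;> simp
  map_smul' c f := by
    funext s
    simp only [Pi.smul_apply, RingHom.id_apply]
    split_ifs <;> simp

lemma cone_apply (f : Finset (Fin (n + 1)) → A) (s : Finset (Fin (n + 1))) :
    cone A f s = if 0 ∈ s then f (s.erase 0) else 0 := rfl

lemma filter_lt_zero (t : Finset (Fin (n + 1))) : t.filter (fun u => u < 0) = ∅ := by
  ext u
  simp

lemma bd_cone_of_notMem (f : Finset (Fin (n + 1)) → A) (t : Finset (Fin (n + 1)))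
    (ht : 0 ∉ t) : bd A (cone A f) t = f t := by
  rw [bd_apply, sum_eq_single 0]
  · rw [filter_lt_zero, cone_apply, if_pos (mem_insert_self _ _), erase_insert ht]
    simp
  · intro v hv hv0
    rw [cone_apply, if_neg, mul_zero]
    rw [mem_insert, not_or]
    exact ⟨Ne.symm hv0, ht⟩
  · intro h
    exact absurd (mem_compl.2 ht) h

lemma bd_cone_of_mem (f : Finset (Fin (n + 1)) → A) (t : Finset (Fin (n + 1)))
    (ht : 0 ∈ t) : bd A (cone A f) t = f t - bd A f (t.erase 0) := by
  set t' := t.erase 0 with ht'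
  have h0 : (0 : Fin (n + 1)) ∉ t' := by simp [ht']
  have hins : insert 0 t' = t := insert_erase ht
  have hcompl : t'ᶜ = insert 0 tᶜ := by
    ext u
    simp only [ht', mem_compl, mem_erase, mem_insert, not_and]
    by_cases hu : u = 0
    · simp [hu]
    · simp [hu]
  rw [bd_apply, bd_apply, hcompl, sum_insert (by simpa using ht), filter_lt_zero, hins]
  simp only [card_empty, pow_zero, one_mul]
  have : ∀ v ∈ tᶜ, (-1 : A) ^ (t.filter (fun u => u < v)).card * cone A f (insert v t)
      = -((-1) ^ (t'.filter (fun u => u < v)).card * f (insert v t')) := by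
    intro v hv
    have hv0 : v ≠ 0 := by
      rintro rfl
      exact (mem_compl.1 hv) ht
    have hpos : (0 : Fin (n + 1)) < v := Fin.pos_iff_ne_zero.2 hv0
    rw [cone_apply, if_pos (mem_insert_of_mem ht)]
    have h1 : (insert v t).erase 0 = insert v t' := by
      rw [erase_insert_of_ne hv0]
    have h2 : (t.filter (fun u => u < v)).card = (t'.filter (fun u => u < v)).card + 1 := by
      conv_lhs => rw [← hins]
      rw [filter_insert, if_pos hpos, card_insert_of_notMem (by simp [h0])]
    rw [h1, h2]
    ring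
  rw [sum_congr rfl this, sum_neg_distrib]
  ring

lemma bd_cone_add (f : Finset (Fin (n + 1)) → A) :
    bd A (cone A f) + cone A (bd A f) = f := by
  funext t
  rw [Pi.add_apply]
  by_cases ht : 0 ∈ t
  · rw [bd_cone_of_mem f t ht, cone_apply, if_pos ht]
    ring
  · rw [bd_cone_of_notMem f t ht, cone_apply, if_neg ht]
    ring

lemma bd_cone_of_cycle (f : Finset (Fin (n + 1)) → A) (hf : bd A f = 0) :
    bd A (cone A f) = f := by
  have := bd_cone_add f
  rwa [hf, map_zero, add_zero] at this

end Pool.Agent.Lib.MP_5453bf_gt
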