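import Mathlib

/-!
# Finite simplicial complexes on `Fin n` and their (reduced) simplicial homology
-/

set_option autoImplicit false

namespace Pool.Agent.Lib.MP_5453bf_gt

open Finset

/-- A finite abstract simplicial complex whose vertex set is exactly `Fin n`
(so it has exactly `n` vertices).  The faces are finite sets of vertices, closed under
passing to subsets; by convention the empty set is listed as a face. -/
structure Cpx (n : ℕ) where
  /-- the faces (including the empty one) -/
  faces : Set (Finset (Fin n))
  empty_mem : ∅ ∈ faces
  vertex_mem : ∀ v : Fin n, {v} ∈ faces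
  down_closed : ∀ s ∈ faces, ∀ t : Finset (Fin n), t ⊆ s → t ∈ faces

/-- The complex has dimension `d`: every face has at most `d + 1` vertices, and some face has
exactly `d + 1` vertices. -/
def Cpx.HasDim {n : ℕ} (X : Cpx n) (d : ℕ) : Prop :=
  (∀ s ∈ X.faces, s.card ≤ d + 1) ∧ ∃ s ∈ X.faces, s.card = d + 1

/-- The simplicial boundary operator (with respect to the order of `Fin n`), with coefficients
in a commutative ring `A`, on formal combinations `f` of finite vertex sets: the face obtained
from `s = {v₀ < v₁ < ... < vₖ}` by deleting `vᵢ` occurs in `∂ s` with coefficient `(-1)^i`. Hence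
the coefficient of `t` in `∂ f` is the sum over the vertices `v ∉ t` of
`(-1)^(number of u ∈ t with u < v) * f (t ∪ {v})`. -/
def bd {n : ℕ} (A : Type) [CommRing A] :
    (Finset (Fin n) → A) →ₗ[A] (Finset (Fin n) → A) where
  toFun f t := ∑ v ∈ tᶜ, (-1) ^ (t.filter (fun u => u < v)).card * f (insert v t)
  map_add' f g := by
    funext t
    simp [mul_add, sum_add_distrib]
  map_smul' c f := by
    funext t
    simp only [Pi.smul_apply, smul_eq_mul, RingHom.id_apply, mul_sum]
    exact sum_congr rfl fun v _ => by ring

/-- The chains supported on the faces of `X` with exactly `j` vertices, that is the simplicial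
chain group of `X` in degree `j - 1` (the augmented one: for `j = 0` it is generated by the
empty face). -/
def Cpx.chains {n : ℕ} (X : Cpx n) (A : Type) [CommRing A] (j : ℕ) :
    Submodule A (Finset (Fin n) → A) where
  carrier := {f | ∀ s, f s ≠ 0 → s ∈ X.faces ∧ s.card = j}
  add_mem' := by
    intro f g hf hg s hs
    by_cases h : f s = 0
    · refine hg s fun h' => hs ?_
      simp [h, h']
    · exact hf s h
  zero_mem' := by
    intro s hs
    exact absurd rfl hs
  smul_mem' := by
    intro c f hf s hs
    refine hf s fun h => hs ?_
    simp [h]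

/-- The cycles of degree `j - 1`. -/
def Cpx.cycles {n : ℕ} (X : Cpx n) (A : Type) [CommRing A] (j : ℕ) :
    Submodule A (Finset (Fin n) → A) :=
  X.chains A j ⊓ LinearMap.ker (bd A)

/-- The boundaries of degree `j - 1`: the image of the chains of degree `j`. -/
def Cpx.boundaries {n : ℕ} (X : Cpx n) (A : Type) [CommRing A] (j : ℕ) :
    Submodule A (Finset (Fin n) → A) :=
  (X.chains A (j + 1)).map (bd A)

/-- Reduced simplicial homology of `X` in degree `j - 1` with coefficients in `A`: cycles
modulo boundaries.  For `j ≥ 2` (degree `j - 1 ≥ 1`) this is the same as the unreduced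
homology, because the two chain complexes agree in degrees `≥ 0`. -/
abbrev Cpx.H {n : ℕ} (X : Cpx n) (A : Type) [CommRing A] (j : ℕ) : Type :=
  X.cycles A j ⧸ (X.boundaries A j).submoduleOf (X.cycles A j)

/-- `X` is `ℚ`-acyclic: its reduced rational homology vanishes in every degree `j - 1 ≥ -1`. -/
def Cpx.QAcyclic {n : ℕ} (X : Cpx n) : Prop :=
  ∀ j : ℕ, Subsingleton (X.H ℚ j)

end Pool.Agent.Lib.MP_5453bf_gt
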