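import Pool.Agent.Lib.MP_5453bf_gt.Sol

set_option autoImplicit false

namespace Pool.Agent.Lib.MP_5453bf_gt

open Finset

/-- the moduli -/
def Qf (d K r : ℕ) : ℕ := 1 + (r + 1) * (d.factorial * K)

lemma Qf_coprime {d K r r' : ℕ} (hr : r ≤ d) (hr' : r' ≤ d) (h : r ≠ r') :
    Nat.Coprime (Qf d K r) (Qf d K r') := by
  rw [Nat.coprime_iff_gcd_eq_one]
  by_contra hg
  obtain ⟨q, hq, hqd⟩ := Nat.exists_prime_and_dvd hg
  have h1 : q ∣ Qf d K r := hqd.trans (Nat.gcd_dvd_left _ _)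
  have h2 : q ∣ Qf d K r' := hqd.trans (Nat.gcd_dvd_right _ _)
  have hc : ¬ q ∣ d.factorial * K := by
    intro hc
    have h3 : q ∣ (r + 1) * (d.factorial * K) := hc.mul_left _
    have h4 : q ∣ 1 := (Nat.dvd_add_left h3).1 h1
    exact hq.one_lt.ne' (Nat.dvd_one.1 h4)
  have h5 : (q : ℤ) ∣ ((r : ℤ) - r') * (d.factorial * K : ℕ) := by
    have e1 : (q : ℤ) ∣ (Qf d K r : ℤ) := Int.natCast_dvd_natCast.2 h1
    have e2 : (q : ℤ) ∣ (Qf d K r' : ℤ) := Int.natCast_dvd_natCast.2 h2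
    have e3 := dvd_sub e1 e2
    have e4 : (Qf d K r : ℤ) - Qf d K r' = ((r : ℤ) - r') * (d.factorial * K : ℕ) := by
      rw [Qf, Qf]
      push_cast
      ring
    rwa [e4] at e3
  rcases (Nat.prime_iff_prime_int.1 hq).dvd_or_dvd h5 with h6 | h6
  · -- q divides r - r', so q ≤ d and q ∣ d!
    have h7 : q ≤ d := by
      have h8 := Int.le_of_dvd (a := (q : ℤ)) (b := |(r : ℤ) - r'|)
        (abs_pos.2 (sub_ne_zero.2 (by exact_mod_cast h))) ((dvd_abs _ _).2 h6)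
      have h9 : |(r : ℤ) - r'| ≤ d := by
        rw [abs_le]
        constructor <;> omega
      omega
    exact hc (Dvd.dvd.mul_right (Nat.dvd_factorial hq.pos h7) _)
  · exact hc (Int.natCast_dvd_natCast.1 h6)

/-- the parameters of the coding -/
def mkPar (d K B : ℕ) (hd : 2 ≤ d) (hK : 0 < K) (hB : B + d < K ^ d) : Par where
  d := d
  hd := hd
  Q := Qf d K
  Qm := 1 + (d + 1) * (d.factorial * K)
  K := K
  B := B
  hK0 := hK
  hQm r hr := by
    rw [Qf]
    have : (r + 1) * (d.factorial * K) ≤ (d + 1) * (d.factorial * K) :=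
      Nat.mul_le_mul_right _ (by omega)
    omega
  hK r hr := by
    rw [Qf]
    have h1 : 1 * K ≤ d.factorial * K := Nat.mul_le_mul_right _ (Nat.factorial_pos d)
    have h2 : 1 * (d.factorial * K) ≤ (r + 1) * (d.factorial * K) :=
      Nat.mul_le_mul_right _ (by omega)
    omega
  hcop r hr r' hr' h := Qf_coprime hr hr' h
  hB := hB

/-- the block structure of a list of moduli -/
def mkBlk (r : ℕ) (m : Fin r → ℕ) (hm : ∀ j, 1 < m j) : Blk where
  r := r
  m := m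
  hm := hm
  off j := ∑ i : Fin j, (m (Fin.castLE j.2.le i)).size
  N := ∑ j, (m j).size
  hoff := by
    intro j i hi
    have h := (finSigmaFinEquiv (n := fun j => (m j).size) ⟨j, ⟨i, hi⟩⟩).2
    rw [finSigmaFinEquiv_apply] at h
    exact h
  hinj := by
    intro j i j' i' hi hi' h
    have h1 := finSigmaFinEquiv_apply (n := fun j => (m j).size) ⟨j, ⟨i, hi⟩⟩
    have h2 := finSigmaFinEquiv_apply (n := fun j => (m j).size) ⟨j', ⟨i', hi'⟩⟩
    have h3 : finSigmaFinEquiv (n := fun j => (m j).size) ⟨j, ⟨i, hi⟩⟩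
        = finSigmaFinEquiv (n := fun j => (m j).size) ⟨j', ⟨i', hi'⟩⟩ := by
      apply Fin.ext
      rw [h1, h2]
      exact h
    have h4 := finSigmaFinEquiv.injective h3
    obtain ⟨h5, h6⟩ := Sigma.mk.inj h4
    subst h5
    have h7 := eq_of_heq h6
    exact ⟨rfl, congrArg Fin.val h7⟩

lemma size_le_log (m : ℕ) (hm : 1 < m) : ((m.size : ℕ) : ℝ) ≤ 3 * Real.log m := by
  have h0 : 0 < m.size := Nat.size_pos.2 (by omega)
  have h1 : 2 ^ (m.size - 1) ≤ m := Nat.lt_size.1 (by omega)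
  have h2 : ((m.size - 1 : ℕ) : ℝ) * Real.log 2 ≤ Real.log m := by
    rw [← Real.log_pow]
    apply Real.log_le_log (by positivity)
    exact_mod_cast h1
  have h3 : Real.log 2 ≤ Real.log m := Real.log_le_log (by norm_num) (by exact_mod_cast hm)
  have h4 : ((m.size - 1 : ℕ) : ℝ) = (m.size : ℝ) - 1 := by
    rw [Nat.cast_sub h0]
    simp
  rw [h4] at h2
  have h5 := Real.log_two_gt_d9
  nlinarith

/-- the construction for a product of cyclic groups -/
theorem construct (d : ℕ) (hd : 2 ≤ d) (r : ℕ) (hr : 0 < r) (m : Fin r → ℕ) (hm : ∀ j, 1 < m j)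
    (K : ℕ) (hK : 0 < K) (hB : (∑ j, (m j).size) + d < K ^ d) :
    ∃ X : Cpx ((d + 1) * (14 * (1 + (d + 1) * (d.factorial * K))) + 1),
      X.HasDim d ∧ X.QAcyclic ∧ Nonempty (X.H ℤ d ≃+ ∀ j, ZMod (m j)) := by
  let p := mkPar d K (∑ j, (m j).size) hd hK hB
  let b := mkBlk r m hm
  have hbN : b.N ≤ p.B := le_rfl
  let D := b.dat p hbN
  letI inst : ∀ i k, Decidable (D.N i k) := fun i k =>
    (inferInstance : Decidable (b.Nb i.1 k.1))
  let G : Gen {x // x ∈ b.idx} D.N (Fin b.r) := b.genr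
  exact ⟨D.cpx, D.hasDim ⟨_, b.base_mem ⟨0, hr⟩⟩, D.qAcyclic G, D.homology_iso G⟩

/-- existence of a suitable `K` -/
lemma exists_K (d N : ℕ) (hd : 2 ≤ d) (L : ℝ) (hL : Real.log 2 ≤ L) (hN : (N : ℝ) ≤ 3 * L) :
    ∃ K : ℕ, 0 < K ∧ N + d < K ^ d ∧ (K : ℝ) ≤ (5 + 2 * d) * L ^ ((1 : ℝ) / d) := by
  have hL0 : (1 : ℝ) / 2 ≤ L := by
    have := Real.log_two_gt_d9
    linarith
  have hLpos : 0 < L := by linarith
  have hd0 : d ≠ 0 := by omega
  have hex : ∃ K : ℕ, N + d < K ^ d := by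
    refine ⟨N + d + 1, ?_⟩
    calc N + d < (N + d + 1) ^ 1 := by rw [pow_one]; omega
      _ ≤ (N + d + 1) ^ d := Nat.pow_le_pow_right (by omega) (by omega)
  classical
  let K := Nat.find hex
  have hK : N + d < K ^ d := Nat.find_spec hex
  have hK0 : 0 < K := by
    rcases Nat.eq_zero_or_pos K with h | h
    · rw [h, zero_pow hd0] at hK
      omega
    · exact h
  refine ⟨K, hK0, hK, ?_⟩
  have hlt : ¬ (N + d < (K - 1) ^ d) := Nat.find_min hex (by omega)
  have h1 : ((K : ℝ) - 1) ^ d ≤ (3 + 2 * d) * L := by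
    have h2 : (K - 1) ^ d ≤ N + d := not_lt.1 hlt
    have h3 : (((K - 1 : ℕ) : ℝ)) ^ d ≤ N + d := by exact_mod_cast h2
    rw [Nat.cast_sub hK0, Nat.cast_one] at h3
    have h4 : (d : ℝ) ≤ 2 * d * L := by
      have : (0 : ℝ) ≤ d := Nat.cast_nonneg d
      nlinarith
    linarith
  have hK1 : (0 : ℝ) ≤ (K : ℝ) - 1 := by
    have : (1 : ℝ) ≤ K := by exact_mod_cast hK0
    linarith
  have hexp : (0 : ℝ) ≤ 1 / d := by positivity
  have hexp1 : (1 : ℝ) / d ≤ 1 := by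
    rw [div_le_one (by positivity)]
    have : (2 : ℝ) ≤ d := by exact_mod_cast hd
    linarith
  have h5 : (K : ℝ) - 1 ≤ ((3 + 2 * d) * L) ^ ((1 : ℝ) / d) := by
    have h6 := Real.rpow_le_rpow (by positivity) h1 hexp
    rwa [one_div, Real.pow_rpow_inv_natCast hK1 hd0, ← one_div] at h6
  have h7 : ((3 + 2 * (d : ℝ)) * L) ^ ((1 : ℝ) / d) ≤ (3 + 2 * d) * L ^ ((1 : ℝ) / d) := by
    rw [Real.mul_rpow (by positivity) hLpos.le]
    apply mul_le_mul_of_nonneg_right _ (by positivity)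
    calc (3 + 2 * (d : ℝ)) ^ ((1 : ℝ) / d) ≤ (3 + 2 * (d : ℝ)) ^ (1 : ℝ) := by
          apply Real.rpow_le_rpow_of_exponent_le _ hexp1
          have : (0 : ℝ) ≤ d := Nat.cast_nonneg d
          linarith
      _ = 3 + 2 * d := Real.rpow_one _
  have h8 : (1 : ℝ) ≤ 2 * L ^ ((1 : ℝ) / d) := by
    have h9 : (1 : ℝ) ≤ (2 * L) ^ ((1 : ℝ) / d) := Real.one_le_rpow (by linarith) hexp
    rw [Real.mul_rpow (by norm_num) hLpos.le] at h9
    have h10 : (2 : ℝ) ^ ((1 : ℝ) / d) ≤ 2 := by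
      calc (2 : ℝ) ^ ((1 : ℝ) / d) ≤ (2 : ℝ) ^ (1 : ℝ) :=
            Real.rpow_le_rpow_of_exponent_le (by norm_num) hexp1
        _ = 2 := Real.rpow_one _
    exact h9.trans (mul_le_mul_of_nonneg_right h10 (by positivity))
  linarith

universe u

theorem main (d : ℕ) (hd : 2 ≤ d) : ∃ C : ℝ, ∀ (G : Type u) [AddCommGroup G] [Finite G]
    [Nontrivial G], ∃ (n : ℕ) (X : Cpx n), X.HasDim d ∧ X.QAcyclic ∧
      Nonempty (X.H ℤ d ≃+ G) ∧ (n : ℝ) ≤ C * (Real.log (Nat.card G)) ^ ((1 : ℝ) / d) := by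
  refine ⟨(((d + 1) * (14 * (1 + (d + 1) * (d.factorial))) + 1 : ℕ) : ℝ) * (5 + 2 * d), ?_⟩
  intro G _ _ _
  classical
  obtain ⟨ι, hι, n, hn, ⟨e⟩⟩ := AddCommGroup.equiv_directSum_zmod_of_finite' G
  let f := Fintype.equivFin ι
  let r := Fintype.card ι
  let m : Fin r → ℕ := fun j => n (f.symm j)
  have hm : ∀ j, 1 < m j := fun j => hn _
  -- the isomorphism with the product
  let e1 : G ≃+ ∀ i, ZMod (n i) := e.trans (DirectSum.addEquivProd _)
  let e2 : (∀ i, ZMod (n i)) ≃+ ∀ j, ZMod (m j) :=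
    (LinearEquiv.piCongrLeft' ℤ (fun i => ZMod (n i)) f).toAddEquiv
  let e3 : G ≃+ ∀ j, ZMod (m j) := e1.trans e2
  have hcard : Nat.card G = ∏ j, m j := by
    rw [Nat.card_congr e3.toEquiv, Nat.card_pi]
    exact prod_congr rfl fun j _ => Nat.card_zmod _
  have hr : 0 < r := by
    by_contra h
    have h0 : r = 0 := by omega
    have h1 : Nat.card G = 1 := by
      rw [hcard]
      have : IsEmpty (Fin r) := by rw [h0]; exact Fin.isEmpty'
      exact prod_of_isEmpty _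
    exact (Finite.one_lt_card (α := G)).ne' h1
  set L := Real.log (Nat.card G) with hLdef
  have hL2 : Real.log 2 ≤ L := by
    apply Real.log_le_log (by norm_num)
    have := Finite.one_lt_card (α := G)
    exact_mod_cast this
  have hN : ((∑ j, (m j).size : ℕ) : ℝ) ≤ 3 * L := by
    rw [hLdef, hcard]
    push_cast
    rw [Real.log_prod (fun j _ => by
      have := hm j
      have h' : m j ≠ 0 := by omega
      exact_mod_cast h'), mul_sum]
    exact sum_le_sum fun j _ => size_le_log _ (hm j)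
  obtain ⟨K, hK0, hK, hKle⟩ := exists_K d _ hd L hL2 hN
  obtain ⟨X, hX1, hX2, ⟨eX⟩⟩ := construct d hd r hr m hm K hK0 hK
  refine ⟨_, X, hX1, hX2, ⟨eX.trans e3.symm⟩, ?_⟩
  have h1 : ((d + 1) * (14 * (1 + (d + 1) * (d.factorial * K))) + 1)
      ≤ ((d + 1) * (14 * (1 + (d + 1) * (d.factorial))) + 1) * K := by
    have e4 : (d + 1) * (14 * (1 + (d + 1) * (d.factorial * K))) + 1
        = (d + 1) * 14 + 1 + (d + 1) * 14 * (d + 1) * d.factorial * K := by ring
    have e5 : ((d + 1) * (14 * (1 + (d + 1) * (d.factorial))) + 1) * K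
        = ((d + 1) * 14 + 1) * K + (d + 1) * 14 * (d + 1) * d.factorial * K := by ring
    rw [e4, e5]
    have e6 : ((d + 1) * 14 + 1) * 1 ≤ ((d + 1) * 14 + 1) * K := Nat.mul_le_mul_left _ hK0
    omega
  calc ((((d + 1) * (14 * (1 + (d + 1) * (d.factorial * K))) + 1 : ℕ)) : ℝ)
      ≤ ((((d + 1) * (14 * (1 + (d + 1) * (d.factorial))) + 1) * K : ℕ) : ℝ) := by
        exact_mod_cast h1
    _ = (((d + 1) * (14 * (1 + (d + 1) * (d.factorial))) + 1 : ℕ) : ℝ) * K := by push_cast; ring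
    _ ≤ (((d + 1) * (14 * (1 + (d + 1) * (d.factorial))) + 1 : ℕ) : ℝ) *
        ((5 + 2 * d) * L ^ ((1 : ℝ) / d)) :=
        mul_le_mul_of_nonneg_left hKle (Nat.cast_nonneg _)
    _ = _ := by ring

end Pool.Agent.Lib.MP_5453bf_gt
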