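import Pool.Agent.Lib.MP_5453bf_gt.Code

/-!
# The local gadgets and their incidences
-/

set_option autoImplicit false

namespace Pool.Agent.Lib.MP_5453bf_gt

open Finset

/-- labels of the three special positions of the (`d`-vertex) faces of the gadget -/
def fa : Fin 11 → ℕ := ![1, 2, 2, 2, 0, 3, 1, 1, 0, 3, 0]
def fb : Fin 11 → ℕ := ![0, 0, 2, 0, 0, 0, 0, 1, 1, 1, 0]
def fc : Fin 11 → ℕ := ![0, 6, 0, 0, 0, 0, 4, 0, 5, 0, 6]
/-- omitted special position -/
def om : Fin 11 → ℕ := ![2, 1, 2, 2, 0, 1, 1, 2, 0, 2, 0]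
/-- shift -/
def sh : Fin 11 → ℕ := ![0, 0, 0, 1, 0, 0, 0, 0, 0, 0, 0]
/-- labels of the three special positions of the (`d+1`-vertex) faces of the gadget -/
def ra : Fin 11 → ℕ := ![2, 2, 2, 1, 1, 1, 1, 3, 3, 3, 1]
def rb : Fin 11 → ℕ := ![0, 2, 2, 0, 0, 1, 1, 0, 1, 1, 0]
def rc : Fin 11 → ℕ := ![6, 6, 0, 0, 4, 4, 5, 0, 0, 5, 6]

/-- labelling of a window -/
def lab (d a b c i : ℕ) : ℕ := if i = 0 then a else if i = 1 then b else if i = d then c else 0

/-- position number -/
def posn (d o : ℕ) : ℕ := if o = 0 then 0 else if o = 1 then 1 else d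

lemma posn_le {d : ℕ} (hd : 2 ≤ d) (o : ℕ) : posn d o ≤ d := by
  rw [posn]
  split_ifs <;> omega

/-- incidence inside a window -/
def same (k κ : Fin 11) : Prop :=
  (om k = 0 ∧ fb k = rb κ ∧ fc k = rc κ) ∨ (om k = 1 ∧ fa k = ra κ ∧ fc k = rc κ) ∨
    (om k = 2 ∧ fa k = ra κ ∧ fb k = rb κ)

/-- incidence with the next window -/
def next (k κ : Fin 11) : Prop := om k = 2 ∧ fa k = rb κ ∧ fb k = rc κ

instance (k κ : Fin 11) : Decidable (same k κ) := by unfold same; infer_instance
instance (k κ : Fin 11) : Decidable (next k κ) := by unfold next; infer_instance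

lemma lab_lt {d a b c : ℕ} (ha : a < 7) (hb : b < 7) (hc : c < 7) (i : ℕ) :
    lab d a b c i < 7 := by
  rw [lab]
  split_ifs <;> omega

lemma fa_lt : ∀ k, fa k < 7 := by decide
lemma fb_lt : ∀ k, fb k < 7 := by decide
lemma fc_lt : ∀ k, fc k < 7 := by decide
lemma ra_lt : ∀ k, ra k < 7 := by decide
lemma rb_lt : ∀ k, rb k < 7 := by decide
lemma rc_lt : ∀ k, rc k < 7 := by decide

lemma next_zero : ∀ k κ, next k κ → fb k = 0 := by decide
lemma no_prev : ∀ k κ, om k = 0 → fb k = ra κ → fc k ≠ rb κ := by decide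
lemma om_le : ∀ k, om k = 0 ∨ om k = 1 ∨ om k = 2 := by decide

/-- labelling of a face -/
def fL (d : ℕ) (k : Fin 11) : ℕ → ℕ := lab d (fa k) (fb k) (fc k)
/-- labelling of a relation -/
def rL (d : ℕ) (κ : Fin 11) : ℕ → ℕ := lab d (ra κ) (rb κ) (rc κ)

lemma fL_lt (d : ℕ) (k : Fin 11) (i : ℕ) : fL d k i < 7 := lab_lt (fa_lt k) (fb_lt k) (fc_lt k) i
lemma rL_lt (d : ℕ) (k : Fin 11) (i : ℕ) : rL d k i < 7 := lab_lt (ra_lt k) (rb_lt k) (rc_lt k) i

namespace Par

variable (p : Par)

/-- the coded faces -/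
def faceS (T : ℕ) (k : Fin 11) : Finset (Fin (p.n + 1)) :=
  p.part (T + sh k) (fL p.d k) (posn p.d (om k))

/-- the coded relations -/
def relS (T : ℕ) (κ : Fin 11) : Finset (Fin (p.n + 1)) := p.full T (rL p.d κ)

/-- the direction missing in a face -/
def dirS (T : ℕ) (k : Fin 11) : ℕ := (T + sh k + posn p.d (om k)) % (p.d + 1)

/-- incidence at the level of sites -/
def nbT (T' : ℕ) (k : Fin 11) (T : ℕ) (κ : Fin 11) : Prop :=
  (T' + sh k = T ∧ same k κ) ∨ (T' + sh k = T + 1 ∧ next k κ)

variable {p}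

lemma part_congr (T : ℕ) {L L' : ℕ → ℕ} {o : ℕ} (h : ∀ i, i ≤ p.d → i ≠ o → L i = L' i) :
    p.part T L o = p.part T L' o := by
  rw [part, part]
  refine image_congr ?_
  intro i hi
  simp only [coe_erase, coe_range, Set.mem_sdiff, Set.mem_Iio, Set.mem_singleton_iff] at hi
  rw [vtx, vtx, h i (by omega) hi.2]

lemma part_shift (T : ℕ) {L L' : ℕ → ℕ} (h : ∀ i, i < p.d → L i = L' (i + 1)) :
    p.part (T + 1) L p.d = p.part T L' 0 := by
  rw [part, part]
  ext v
  simp only [mem_image, mem_erase, mem_range]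
  constructor
  · rintro ⟨i, ⟨hi1, hi2⟩, rfl⟩
    refine ⟨i + 1, ⟨by omega, by omega⟩, ?_⟩
    rw [vtx, vtx, h i (by omega)]
    congr 2
    omega
  · rintro ⟨i, ⟨hi1, hi2⟩, rfl⟩
    refine ⟨i - 1, ⟨by omega, by omega⟩, ?_⟩
    rw [vtx, vtx, h (i - 1) (by omega), Nat.sub_add_cancel (by omega)]
    congr 2
    omega

lemma spec {T' : ℕ} {k : Fin 11} {T : ℕ} {κ : Fin 11} (h : nbT T' k T κ) :
    ∃ v, v ∉ p.faceS T' k ∧ insert v (p.faceS T' k) = p.relS T κ ∧
      ((p.faceS T' k).filter (fun u => u < v)).card = p.dirS T' k := by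
  have hd := p.hd
  have hpos := posn_le hd (om k)
  rcases h with ⟨hT, hs⟩ | ⟨hT, hn⟩
  · have he : p.faceS T' k = p.part T (rL p.d κ) (posn p.d (om k)) := by
      rw [faceS, hT]
      apply part_congr
      intro i hi hio
      rw [fL, rL, lab, lab]
      rcases hs with ⟨h0, h1, h2⟩ | ⟨h0, h1, h2⟩ | ⟨h0, h1, h2⟩
      · have hio' : i ≠ 0 := by rw [h0] at hio; simpa [posn] using hio
        split_ifs <;> first | rfl | assumption | omega
      · have hio' : i ≠ 1 := by rw [h0] at hio; simpa [posn] using hio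
        split_ifs <;> first | rfl | assumption
      · have hio' : i ≠ p.d := by rw [h0] at hio; simpa [posn] using hio
        split_ifs <;> first | rfl | assumption
    refine ⟨p.vtx T (rL p.d κ) (posn p.d (om k)), ?_, ?_, ?_⟩
    · rw [he]
      exact vtx_notMem_part _ _ (rL_lt _ _) _ hpos
    · rw [he, relS]
      exact insert_part _ _ _ hpos
    · rw [he, filter_part _ _ (rL_lt _ _) _ hpos, dirS, hT]
  · have ho : posn p.d (om k) = p.d := by
      rw [posn, hn.1]
      simp
    have he : p.faceS T' k = p.part T (rL p.d κ) 0 := by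
      rw [faceS, hT, ho]
      apply part_shift
      intro i hi
      have h0 := next_zero _ _ hn
      have h1 := hn.2.1
      have h2 := hn.2.2
      rw [fL, rL, lab, lab]
      have e0 : ¬ (i + 1 = 0) := by omega
      rw [if_neg e0]
      by_cases hi0 : i = 0
      · subst hi0
        simp [h1]
      · rw [if_neg hi0, if_neg (show ¬ (i + 1 = 1) by omega), if_neg (show ¬ (i = p.d) by omega)]
        split_ifs <;> omega
    refine ⟨p.vtx T (rL p.d κ) 0, ?_, ?_, ?_⟩
    · rw [he]
      exact vtx_notMem_part _ _ (rL_lt _ _) _ (Nat.zero_le _)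
    · rw [he, relS]
      exact insert_part _ _ _ (Nat.zero_le _)
    · rw [he, filter_part _ _ (rL_lt _ _) _ (Nat.zero_le _), dirS, hT, ho]
      rw [show T + 1 + p.d = T + 0 + (p.d + 1) by omega, Nat.add_mod_right]

lemma spec' {T' : ℕ} {k : Fin 11} {T : ℕ} {κ : Fin 11} (hT' : T' + sh k ≤ p.B) (hT : T ≤ p.B)
    (h : p.faceS T' k ⊆ p.relS T κ) : nbT T' k T κ := by
  have hd := p.hd
  have hkey := key (fL_lt p.d k) (rL_lt p.d κ) (posn_le hd (om k)) hT' hT h
  set T0 := T' + sh k with hT0
  rcases om_le k with ho | ho | ho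
  · -- position 0 omitted
    have hp : posn p.d (om k) = 0 := by rw [ho]; rfl
    rw [hp] at hkey
    obtain ⟨i1, hi1, he1, hl1⟩ := hkey 1 (by omega) (by omega)
    obtain ⟨i2, hi2, he2, hl2⟩ := hkey p.d le_rfl (by omega)
    have hf1 : fL p.d k 1 = fb k := by
      rw [fL, lab]
      simp
    have hf2 : fL p.d k p.d = fc k := by
      rw [fL, lab, if_neg (by omega), if_neg (by omega), if_pos rfl]
    rw [hf1] at hl1
    rw [hf2] at hl2
    have hcase : T0 = T ∨ T0 + 1 = T := by omega
    rcases hcase with hc | hc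
    · left
      refine ⟨hc, Or.inl ⟨ho, ?_, ?_⟩⟩
      · obtain rfl : i1 = 1 := by omega
        rw [hl1, rL, lab]
        simp
      · obtain rfl : i2 = p.d := by omega
        rw [hl2, rL, lab, if_neg (by omega), if_neg (by omega), if_pos rfl]
    · exfalso
      obtain rfl : i1 = 0 := by omega
      have h1 : fb k = ra κ := by
        rw [hl1, rL, lab]
        simp
      rcases Nat.lt_or_ge p.d 3 with h3 | h3
      · have hi21 : i2 = 1 := by omega
        subst hi21
        refine no_prev k κ ho h1 ?_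
        rw [hl2, rL, lab]
        simp
      · -- then also position 2 has label 0
        obtain ⟨i3, hi3, he3, hl3⟩ := hkey 2 (by omega) (by omega)
        obtain rfl : i3 = 1 := by omega
        have h2 : fc k = 0 := by
          rw [hl2, rL, lab, if_neg (by omega), if_neg (by omega), if_neg (by omega)]
        have h4 : rb κ = 0 := by
          have : rL p.d κ 1 = rb κ := by
            rw [rL, lab]
            simp
          rw [← this, ← hl3, fL, lab, if_neg (by omega), if_neg (by omega), if_neg (by omega)]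
        exact no_prev k κ ho h1 (h2.trans h4.symm)
  · have hp : posn p.d (om k) = 1 := by rw [ho]; rfl
    rw [hp] at hkey
    obtain ⟨i1, hi1, he1, hl1⟩ := hkey 0 (by omega) (by omega)
    obtain ⟨i2, hi2, he2, hl2⟩ := hkey p.d le_rfl (by omega)
    have hc : T0 = T := by omega
    left
    refine ⟨hc, Or.inr (Or.inl ⟨ho, ?_, ?_⟩)⟩
    · obtain rfl : i1 = 0 := by omega
      simpa [fL, rL, lab] using hl1
    · obtain rfl : i2 = p.d := by omega
      rw [fL, rL, lab, lab, if_neg (by omega), if_neg (by omega), if_pos rfl,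
        if_neg (by omega), if_neg (by omega), if_pos rfl] at hl2
      exact hl2
  · have hp : posn p.d (om k) = p.d := by rw [ho]; simp [posn]
    rw [hp] at hkey
    obtain ⟨i1, hi1, he1, hl1⟩ := hkey 0 (by omega) (by omega)
    obtain ⟨i2, hi2, he2, hl2⟩ := hkey 1 (by omega) (by omega)
    obtain ⟨i3, hi3, he3, hl3⟩ := hkey (p.d - 1) (by omega) (by omega)
    have hf1 : fL p.d k 0 = fa k := by simp [fL, lab]
    have hf2 : fL p.d k 1 = fb k := by simp [fL, lab]
    rw [hf1] at hl1
    rw [hf2] at hl2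
    have hcase : T0 = T ∨ T0 = T + 1 := by omega
    rcases hcase with hc | hc
    · left
      refine ⟨hc, Or.inr (Or.inr ⟨ho, ?_, ?_⟩)⟩
      · obtain rfl : i1 = 0 := by omega
        rw [hl1]
        simp [rL, lab]
      · obtain rfl : i2 = 1 := by omega
        rw [hl2]
        simp [rL, lab]
    · right
      refine ⟨hc, ho, ?_, ?_⟩
      · obtain rfl : i1 = 1 := by omega
        rw [hl1]
        simp [rL, lab]
      · obtain rfl : i2 = 2 := by omega
        obtain rfl : i3 = p.d := by omega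
        rcases Nat.lt_or_ge p.d 3 with h3 | h3
        · have hd2 : p.d = 2 := by omega
          rw [hl2, rL, lab, if_neg (by omega), if_neg (by omega), if_pos hd2.symm]
        · rw [fL, rL, lab, lab, if_neg (by omega), if_neg (by omega), if_neg (by omega),
            if_neg (by omega), if_neg (by omega), if_pos rfl] at hl3
          rw [hl2, rL, lab, if_neg (by omega), if_neg (by omega), if_neg (by omega)]
          exact hl3

end Par

end Pool.Agent.Lib.MP_5453bf_gt
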