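import Pool.Agent.Lib.MP_5453bf_gt.Cone

set_option autoImplicit false
set_option linter.unusedSectionVars false

namespace Pool.Agent.Lib.MP_5453bf_gt

open Finset

/-- Combinatorial data for a `d`-dimensional complex on `Fin (n+1)` with complete
`(d-1)`-skeleton: the `d`-subsets `face i` of `{1,..,n}` that are not coned off, and the
`(d+1)`-subsets `rel i` of `{1,..,n}` that are faces. -/
structure Dat (n d : ℕ) (ι : Type) where
  face : ι → Finset (Fin (n + 1))
  rel : ι → Finset (Fin (n + 1))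
  face_card : ∀ i, (face i).card = d
  rel_card : ∀ i, (rel i).card = d + 1
  face_zero : ∀ i, 0 ∉ face i
  rel_zero : ∀ i, 0 ∉ rel i
  face_inj : Function.Injective face
  rel_inj : Function.Injective rel
  one_le : 1 ≤ d
  /-- parity exponents -/
  δ : ι → ℕ
  /-- incidence -/
  N : ι → ι → Prop
  N_spec : ∀ i k, N i k → ∃ v, v ∉ face i ∧ insert v (face i) = rel k ∧
    ((face i).filter (fun u => u < v)).card = δ i
  N_spec' : ∀ i k, ¬ N i k → ∀ v, v ∉ face i → insert v (face i) ≠ rel k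

namespace Dat

variable {n d : ℕ} {ι : Type} (D : Dat n d ι)

/-- the complex -/
def cpx : Cpx (n + 1) where
  faces := {s | s.card ≤ d ∨ (s.card = d + 1 ∧
    ((0 ∈ s ∧ ∀ i, D.face i ≠ s.erase 0) ∨ (∃ i, D.rel i = s)))}
  empty_mem := Or.inl (by simp)
  vertex_mem v := Or.inl (by simpa using D.one_le)
  down_closed := by
    rintro s hs t hts
    rcases hs with hs | hs
    · exact Or.inl ((card_le_card hts).trans hs)
    · by_cases h : t = s
      · subst h
        exact Or.inr hs
      · refine Or.inl ?_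
        have := card_lt_card (lt_of_le_of_ne hts h)
        omega

lemma mem_faces (s : Finset (Fin (n + 1))) : s ∈ D.cpx.faces ↔ (s.card ≤ d ∨ (s.card = d + 1 ∧
    ((0 ∈ s ∧ ∀ i, D.face i ≠ s.erase 0) ∨ (∃ i, D.rel i = s)))) := Iff.rfl

lemma card_le_of_mem {s : Finset (Fin (n + 1))} (hs : s ∈ D.cpx.faces) : s.card ≤ d + 1 := by
  rcases hs with hs | hs
  · omega
  · omega

lemma rel_mem (i : ι) : D.rel i ∈ D.cpx.faces :=
  Or.inr ⟨D.rel_card i, Or.inr ⟨i, rfl⟩⟩

lemma hasDim (i : ι) : D.cpx.HasDim d :=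
  ⟨fun _ hs => D.card_le_of_mem hs, D.rel i, D.rel_mem i, D.rel_card i⟩

section

variable {A : Type} [CommRing A]

lemma mem_chains {X : Cpx n} {j : ℕ} {f : Finset (Fin n) → A} :
    f ∈ X.chains A j ↔ ∀ s, f s ≠ 0 → s ∈ X.faces ∧ s.card = j := Iff.rfl

lemma mem_cycles {X : Cpx n} {j : ℕ} {f : Finset (Fin n) → A} :
    f ∈ X.cycles A j ↔ f ∈ X.chains A j ∧ bd A f = 0 := by
  rw [Cpx.cycles, Submodule.mem_inf, LinearMap.mem_ker]

lemma mem_boundaries {X : Cpx n} {j : ℕ} {f : Finset (Fin n) → A} :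
    f ∈ X.boundaries A j ↔ ∃ g ∈ X.chains A (j + 1), bd A g = f := by
  rw [Cpx.boundaries, Submodule.mem_map]

lemma subsingleton_H {X : Cpx n} {j : ℕ} (h : X.cycles A j ≤ X.boundaries A j) :
    Subsingleton (X.H A j) := by
  rw [Cpx.H, Submodule.Quotient.subsingleton_iff]
  rw [eq_top_iff]
  rintro ⟨x, hx⟩ _
  exact h hx

/-- low degrees -/
lemma low (j : ℕ) (hj : j < d) : D.cpx.cycles A j ≤ D.cpx.boundaries A j := by
  intro f hf
  rw [mem_cycles] at hf
  rw [mem_boundaries]
  refine ⟨cone A f, ?_, bd_cone_of_cycle f hf.2⟩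
  rw [mem_chains]
  intro s hs
  rw [cone_apply] at hs
  split_ifs at hs with h0
  · have h1 := hf.1 _ hs
    have h2 : s.card = j + 1 := by
      have := card_erase_add_one h0
      omega
    exact ⟨Or.inl (by omega), h2⟩
  · exact absurd rfl hs

/-- high degrees -/
lemma high (j : ℕ) (hj : d + 1 < j) : D.cpx.cycles A j ≤ D.cpx.boundaries A j := by
  intro f hf
  rw [mem_cycles] at hf
  have : f = 0 := by
    funext s
    by_contra h
    have h1 := hf.1 s h
    have h2 := D.card_le_of_mem h1.1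
    omega
  rw [this]
  exact zero_mem _

/-- the basic cycles -/
def zc (A : Type) [CommRing A] (τ : Finset (Fin (n + 1))) : Finset (Fin (n + 1)) → A :=
  bd A (cone A (Pi.single τ 1))

/-- the set of `d`-subsets without `0` -/
def P (n d : ℕ) : Finset (Finset (Fin (n + 1))) := univ.filter fun s => 0 ∉ s ∧ s.card = d

lemma mem_P {s : Finset (Fin (n + 1))} : s ∈ P n d ↔ 0 ∉ s ∧ s.card = d := by
  simp [P]

lemma cone_eq_sum (f : Finset (Fin (n + 1)) → A) (hf : ∀ s, f s ≠ 0 → s.card = d) :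
    cone A f = ∑ τ ∈ P n d, f τ • cone A (Pi.single τ 1) := by
  funext s
  rw [Finset.sum_apply]
  simp only [Pi.smul_apply, cone_apply, smul_eq_mul]
  split_ifs with h0
  · by_cases h1 : (s.erase 0).card = d
    · rw [sum_eq_single (s.erase 0)]
      · simp
      · intro τ _ hne
        rw [Pi.single_eq_of_ne (Ne.symm hne), mul_zero]
      · intro h
        exact absurd (mem_P.2 ⟨by simp, h1⟩) h
    · have h2 : f (s.erase 0) = 0 := by
        by_contra h
        exact h1 (hf _ h)
      rw [h2]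
      symm
      refine sum_eq_zero fun τ hτ => ?_
      rw [Pi.single_eq_of_ne, mul_zero]
      rintro rfl
      exact h1 (mem_P.1 hτ).2
  · simp

lemma cycle_eq_sum (f : Finset (Fin (n + 1)) → A) (hf : f ∈ D.cpx.cycles A d) :
    f = ∑ τ ∈ P n d, f τ • zc A τ := by
  rw [mem_cycles] at hf
  conv_lhs => rw [← bd_cone_of_cycle f hf.2, cone_eq_sum f fun s hs => (hf.1 s hs).2]
  rw [map_sum]
  exact sum_congr rfl fun τ _ => by rw [map_smul, zc]

lemma cone_single (τ : Finset (Fin (n + 1))) (h : 0 ∉ τ) :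
    cone A (Pi.single τ 1) = Pi.single (insert 0 τ) 1 := by
  funext s
  rw [cone_apply]
  by_cases hs : s = insert 0 τ
  · subst hs
    rw [if_pos (mem_insert_self _ _), erase_insert h]
    simp
  · rw [Pi.single_eq_of_ne hs]
    split_ifs with h0
    · rw [Pi.single_eq_of_ne]
      rintro rfl
      exact hs (insert_erase h0).symm
    · rfl

lemma single_mem_chains {X : Cpx n} {s : Finset (Fin n)} (hs : s ∈ X.faces) (a : A) :
    (Pi.single s a : Finset (Fin n) → A) ∈ X.chains A s.card := by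
  rw [mem_chains]
  intro t ht
  have : t = s := by
    by_contra h
    exact ht (Pi.single_eq_of_ne h _)
  subst this
  exact ⟨hs, rfl⟩

lemma zc_mem_boundaries (τ : Finset (Fin (n + 1))) (h : 0 ∉ τ) (hc : τ.card = d)
    (hτ : ∀ i, D.face i ≠ τ) : zc A τ ∈ D.cpx.boundaries A d := by
  rw [mem_boundaries]
  refine ⟨cone A (Pi.single τ 1), ?_, rfl⟩
  rw [cone_single τ h]
  have hc' : (insert 0 τ).card = d + 1 := by rw [card_insert_of_notMem h, hc]
  have := single_mem_chains (X := D.cpx) (s := insert 0 τ) (Or.inr ⟨hc', Or.inl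
    ⟨mem_insert_self _ _, by rwa [erase_insert h]⟩⟩) (1 : A)
  rwa [hc'] at this

lemma zc_mem_cycles (τ : Finset (Fin (n + 1))) (h : 0 ∉ τ) (hc : τ.card = d) :
    zc A τ ∈ D.cpx.cycles A d := by
  rw [mem_cycles]
  refine ⟨?_, bd_bd _⟩
  rw [mem_chains]
  intro s hs
  by_cases h0 : 0 ∈ s
  · rw [zc, bd_cone_of_mem _ _ h0] at hs
    by_cases h1 : s = τ
    · exact absurd h0 (h1 ▸ h)
    · rw [Pi.single_eq_of_ne h1, zero_sub, neg_ne_zero] at hs
      by_contra hcon
      apply hs
      apply bd_single_of_ne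
      intro v hv hins
      apply hcon
      have hcard : s.card = d := by
        have h2 := card_insert_of_notMem hv
        have h3 := card_erase_add_one h0
        rw [hins] at h2
        omega
      exact ⟨Or.inl (by omega), hcard⟩
  · rw [zc, bd_cone_of_notMem _ _ h0] at hs
    have : s = τ := by
      by_contra h'
      exact hs (Pi.single_eq_of_ne h' _)
    subst this
    exact ⟨Or.inl (by omega), hc⟩

lemma zc_apply (τ s : Finset (Fin (n + 1))) (hs : 0 ∉ s) :
    zc A τ s = (Pi.single τ 1 : Finset (Fin (n + 1)) → A) s := by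
  rw [zc, bd_cone_of_notMem _ _ hs]

/-- class of the normalised basic cycle modulo boundaries -/
def z (A : Type) [CommRing A] (i : ι) :
    (Finset (Fin (n + 1)) → A) ⧸ D.cpx.boundaries A d :=
  (D.cpx.boundaries A d).mkQ ((-1 : A) ^ D.δ i • zc A (D.face i))

variable [Fintype ι] [DecidableEq ι]

lemma sum_P {M : Type*} [AddCommMonoid M] (F : Finset (Fin (n + 1)) → M)
    (hF : ∀ τ ∈ P n d, (∀ i, D.face i ≠ τ) → F τ = 0) :
    ∑ τ ∈ P n d, F τ = ∑ i, F (D.face i) := by
  classical
  have hsub : univ.image D.face ⊆ P n d := by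
    intro τ hτ
    obtain ⟨i, _, rfl⟩ := mem_image.1 hτ
    exact mem_P.2 ⟨D.face_zero i, D.face_card i⟩
  rw [← sum_subset hsub, sum_image fun i _ j _ h => D.face_inj h]
  intro τ hτ hn
  refine hF τ hτ fun i hi => hn ?_
  exact mem_image.2 ⟨i, mem_univ _, hi⟩

lemma mk_cycle (f : Finset (Fin (n + 1)) → A) (hf : f ∈ D.cpx.cycles A d) :
    (D.cpx.boundaries A d).mkQ f = ∑ i, ((-1 : A) ^ D.δ i * f (D.face i)) • D.z A i := by
  conv_lhs => rw [D.cycle_eq_sum f hf]
  rw [map_sum, D.sum_P]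
  · refine sum_congr rfl fun i _ => ?_
    rw [z, map_smul, map_smul, smul_smul]
    congr 1
    rw [mul_right_comm, ← pow_add, ← two_mul, pow_mul]
    simp
  · intro τ hτ hn
    rw [map_smul]
    have := D.zc_mem_boundaries (A := A) τ (mem_P.1 hτ).1 (mem_P.1 hτ).2 hn
    rw [← Submodule.Quotient.mk_eq_zero, ← Submodule.mkQ_apply] at this
    rw [this, smul_zero]

open Classical in
lemma bd_rel_face (i k : ι) :
    bd A (Pi.single (D.rel k) 1) (D.face i) = if D.N i k then (-1 : A) ^ D.δ i else 0 := by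
  split_ifs with h
  · obtain ⟨v, hv, he, hc⟩ := D.N_spec i k h
    rw [← he, bd_single_insert _ _ hv, hc, mul_one]
  · exact bd_single_of_ne _ _ (D.N_spec' i k h) _

lemma bd_rel_mem (k : ι) : bd A (Pi.single (D.rel k) 1) ∈ D.cpx.boundaries A d := by
  rw [mem_boundaries]
  refine ⟨_, ?_, rfl⟩
  have := single_mem_chains (X := D.cpx) (D.rel_mem k) (1 : A)
  rwa [D.rel_card] at this

lemma bd_rel_cycle (k : ι) : bd A (Pi.single (D.rel k) 1) ∈ D.cpx.cycles A d := by
  rw [mem_cycles]
  refine ⟨?_, bd_bd _⟩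
  rw [mem_chains]
  intro s hs
  by_contra hcon
  apply hs
  apply bd_single_of_ne
  intro v hv hins
  apply hcon
  have hcard : s.card = d := by
    have h2 := card_insert_of_notMem hv
    rw [hins, D.rel_card] at h2
    omega
  exact ⟨Or.inl (by omega), hcard⟩

open Classical in
lemma z_rel (k : ι) : ∑ i, (if D.N i k then D.z A i else 0) = 0 := by
  have h1 := D.mk_cycle _ (D.bd_rel_cycle (A := A) k)
  have h2 := D.bd_rel_mem (A := A) k
  rw [← Submodule.Quotient.mk_eq_zero, ← Submodule.mkQ_apply] at h2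
  refine Eq.trans ?_ (h1.symm.trans h2)
  refine sum_congr rfl fun i _ => ?_
  rw [D.bd_rel_face]
  split_ifs with h
  · rw [← pow_add, ← two_mul, pow_mul]
    simp
  · simp

end

end Dat

end Pool.Agent.Lib.MP_5453bf_gt
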