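import Pool.Agent.Lib.MP_5453bf_gt.Alg

set_option autoImplicit false

namespace Pool.Agent.Lib.MP_5453bf_gt

open Finset

namespace Blk

variable (b : Blk)

/-- the `i`-th binary digit -/
def bt (j : Fin b.r) (i : ℕ) : ℕ := b.m j / 2 ^ i % 2

/-- truncations -/
def tr (j : Fin b.r) (i : ℕ) : ℕ := b.m j % 2 ^ i

lemma tr_succ (j : Fin b.r) (i : ℕ) : b.tr j (i + 1) = b.tr j i + 2 ^ i * b.bt j i :=
  Nat.mod_pow_succ

lemma tr_zero (j : Fin b.r) : b.tr j 0 = 0 := by
  simp [tr, Nat.mod_one]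

lemma tr_size (j : Fin b.r) : b.tr j (b.m j).size = b.m j :=
  Nat.mod_eq_of_lt (Nat.lt_size_self _)

lemma size_pos (j : Fin b.r) : 0 < (b.m j).size := Nat.size_pos.2 (by have := b.hm j; omega)

lemma act_low {j : Fin b.r} {i : ℕ} {k : Fin 11} (hi : i < (b.m j).size) (hk : k.val < 3) :
    (j, i, k) ∈ b.idx := b.mem_idx.2 ⟨hi, Or.inl hk⟩

lemma act_mid {j : Fin b.r} {i : ℕ} {k : Fin 11} (hi : i + 1 < (b.m j).size)
    (hk : k.val < 10) : (j, i, k) ∈ b.idx :=
  b.mem_idx.2 ⟨(Nat.lt_succ_self i).trans hi, Or.inr (Or.inl ⟨hk, hi⟩)⟩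

lemma testBit_iff (j : Fin b.r) (i : ℕ) : (b.m j).testBit i = true ↔ b.bt j i = 1 := by
  rw [Nat.testBit_eq_decide_div_mod_eq, decide_eq_true_iff]
  rfl

lemma bt_cases (j : Fin b.r) (i : ℕ) : b.bt j i = 0 ∨ b.bt j i = 1 :=
  Nat.mod_two_eq_zero_or_one _

lemma act_bit {j : Fin b.r} {i : ℕ} (hi : i < (b.m j).size) (h : b.bt j i = 1) :
    (j, i, (10 : Fin 11)) ∈ b.idx :=
  b.mem_idx.2 ⟨hi, Or.inr (Or.inr ⟨rfl, (b.testBit_iff j i).2 h⟩)⟩

lemma not_act_bit {j : Fin b.r} {i : ℕ} (h : b.bt j i = 0) :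
    (j, i, (10 : Fin 11)) ∉ b.idx := by
  intro h'
  rcases (b.mem_idx.1 h').2 with h1 | h1 | h1
  · exact absurd (show (10 : Fin 11).val < 3 from h1) (by decide)
  · exact absurd (show (10 : Fin 11).val < 10 from h1.1) (by decide)
  · have := (b.testBit_iff j i).1 h1.2
    omega

lemma not_act_last {j : Fin b.r} {i : ℕ} (h : ¬ (i + 1 < (b.m j).size)) :
    (j, i, (3 : Fin 11)) ∉ b.idx := by
  intro h'
  rcases (b.mem_idx.1 h').2 with h1 | h1 | h1
  · exact absurd (show (3 : Fin 11).val < 3 from h1) (by decide)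
  · exact h h1.2
  · exact absurd (show (3 : Fin 11).val = 10 from h1.1) (by decide)

section gen

variable {H : Type} [AddCommGroup H] (z : {x // x ∈ b.idx} → H)
  (hz : ∀ y : {x // x ∈ b.idx}, ∑ x : {x // x ∈ b.idx}, (if b.Nb x.1 y.1 then z x else 0) = 0)

include hz

lemma eq_of (j : Fin b.r) (i : ℕ) (κ : Fin 11) (h : (j, i, κ) ∈ b.idx) :
    ∑ x : {x // x ∈ b.idx}, (if b.Nb x.1 (j, i, κ) then z x else 0) = 0 := hz ⟨_, h⟩

lemma x_succ (j : Fin b.r) (i : ℕ) (h : i + 1 < (b.m j).size) :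
    b.ext z (j, i, 4) = -b.ext z (j, i, 0) ∧ b.ext z (j, i, 5) = b.ext z (j, i, 0) ∧
    b.ext z (j, i, 6) = -b.ext z (j, i, 0) ∧ b.ext z (j, i, 7) = b.ext z (j, i, 0) ∧
    b.ext z (j, i, 8) = -b.ext z (j, i, 0) ∧ b.ext z (j, i, 9) = b.ext z (j, i, 0) ∧
    b.ext z (j, i + 1, 0) = (-2 : ℤ) • b.ext z (j, i, 0) := by
  have e3 := b.eq_of z hz j i 3 (b.act_mid h (by decide))
  have e4 := b.eq_of z hz j i 4 (b.act_mid h (by decide))
  have e5 := b.eq_of z hz j i 5 (b.act_mid h (by decide))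
  have e6 := b.eq_of z hz j i 6 (b.act_mid h (by decide))
  have e7 := b.eq_of z hz j i 7 (b.act_mid h (by decide))
  have e8 := b.eq_of z hz j i 8 (b.act_mid h (by decide))
  have e9 := b.eq_of z hz j i 9 (b.act_mid h (by decide))
  rw [b.sum_3] at e3
  rw [b.sum_4] at e4
  rw [b.sum_5] at e5
  rw [b.sum_6] at e6
  rw [b.sum_7] at e7
  rw [b.sum_8] at e8
  rw [b.sum_9] at e9
  generalize b.ext z (j, i, 0) = X at *
  generalize b.ext z (j, i, 4) = a4 at *
  generalize b.ext z (j, i, 5) = a5 at *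
  generalize b.ext z (j, i, 6) = a6 at *
  generalize b.ext z (j, i, 7) = a7 at *
  generalize b.ext z (j, i, 8) = a8 at *
  generalize b.ext z (j, i, 9) = a9 at *
  have h4 : a4 = -X := (neg_eq_of_add_eq_zero_right e3).symm
  have h6 : a6 = -X := (neg_eq_of_add_eq_zero_right e4).symm
  have h7 : a7 = X := by
    rw [h6] at e5
    exact (neg_add_eq_zero.1 e5).symm
  have h8 : a8 = -X := by
    rw [h7] at e6
    exact (neg_eq_of_add_eq_zero_right e6).symm
  have h5 : a5 = X := by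
    rw [h4] at e7
    exact (neg_add_eq_zero.1 e7).symm
  have h9 : a9 = X := by
    rw [h8] at e9
    exact (neg_add_eq_zero.1 e9).symm
  refine ⟨h4, h5, h6, h7, h8, h9, ?_⟩
  rw [h5, h9, ← add_assoc] at e8
  have := (neg_eq_of_add_eq_zero_right e8).symm
  rw [this]
  module

lemma x_eq (j : Fin b.r) (i : ℕ) (h : i < (b.m j).size) :
    b.ext z (j, i, 0) = ((-2 : ℤ) ^ i) • b.ext z (j, 0, 0) := by
  induction i with
  | zero => simp
  | succ i ih =>
    rw [(b.x_succ z hz j i h).2.2.2.2.2.2, ih (by omega), smul_smul, pow_succ']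

lemma z10 (j : Fin b.r) (i : ℕ) (h : i < (b.m j).size) :
    b.ext z (j, i, 10) = (-(b.bt j i : ℤ) * (-2) ^ i) • b.ext z (j, 0, 0) := by
  rcases b.bt_cases j i with h0 | h1
  · rw [b.ext_of_notMem z (b.not_act_bit h0), h0]
    simp
  · have e := b.eq_of z hz j i 10 (b.act_bit h h1)
    rw [b.sum_10] at e
    have := (neg_eq_of_add_eq_zero_right e).symm
    rw [this, b.x_eq z hz j i h, h1]
    module

lemma ya (j : Fin b.r) (i : ℕ) (h : i < (b.m j).size) :
    b.ext z (j, i, 2) = -b.ext z (j, i, 1) ∧ b.ext z (j, i, 3) = b.ext z (j, i, 1) := by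
  have e1 := b.eq_of z hz j i 1 (b.act_low h (by decide))
  have e2 := b.eq_of z hz j i 2 (b.act_low h (by decide))
  rw [b.sum_1] at e1
  rw [b.sum_2] at e2
  have h1 := (neg_eq_of_add_eq_zero_right e1).symm
  refine ⟨h1, ?_⟩
  rw [h1] at e2
  exact (neg_add_eq_zero.1 e2).symm

lemma y_eq (j : Fin b.r) (i : ℕ) (h : i < (b.m j).size) :
    b.ext z (j, i, 1) = ((-1 : ℤ) ^ i * (b.tr j (i + 1) : ℤ)) • b.ext z (j, 0, 0) := by
  induction i with
  | zero =>
    have e := b.eq_of z hz j 0 0 (b.act_low h (by decide))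
    rw [b.sum_0_zero, b.z10 z hz j 0 h] at e
    have := eq_neg_of_add_eq_zero_left e
    rw [this, b.tr_succ, b.tr_zero]
    push_cast
    module
  | succ i ih =>
    have e := b.eq_of z hz j (i + 1) 0 (b.act_low h (by decide))
    rw [b.sum_0_succ, b.z10 z hz j (i + 1) h, (b.ya z hz j i (by omega)).2, ih (by omega)] at e
    have e' := eq_neg_of_add_eq_zero_right e
    have e'' := eq_sub_of_add_eq e'
    rw [e'', b.tr_succ j (i + 1)]
    push_cast
    have : (-2 : ℤ) ^ (i + 1) = (-1) ^ (i + 1) * 2 ^ (i + 1) := by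
      rw [← mul_pow]
      norm_num
    rw [this]
    generalize b.ext z (j, 0, 0) = X
    have h2 : (-1 : ℤ) ^ (i + 1) = -(-1) ^ i := by rw [pow_succ]; ring
    rw [h2]
    module

lemma m_smul (j : Fin b.r) : (b.m j) • b.ext z (j, 0, 0) = 0 := by
  have hs := b.size_pos j
  obtain ⟨i, hi⟩ : ∃ i, (b.m j).size = i + 1 := ⟨(b.m j).size - 1, by omega⟩
  have h1 := b.y_eq z hz j i (by omega)
  have h2 := (b.ya z hz j i (by omega)).2
  rw [b.ext_of_notMem z (b.not_act_last (by omega)), h1, ← hi, b.tr_size, mul_smul] at h2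
  have h3 : ((-1 : ℤ) ^ i * (-1) ^ i) = 1 := by
    rw [← mul_pow]
    simp
  have h4 := congrArg (fun y => ((-1 : ℤ) ^ i) • y) h2
  simp only [smul_zero, smul_smul, ← mul_assoc, h3, one_mul] at h4
  rw [← natCast_zsmul]
  exact h4.symm

end gen

/-- signs -/
def sgk : Fin 11 → ℤ := ![1, 1, -1, 1, -1, 1, -1, 1, -1, 1, -1]

/-- coefficients -/
def cf (x : Fin b.r × ℕ × Fin 11) : ℤ :=
  if x.2.2 = 1 ∨ x.2.2 = 2 ∨ x.2.2 = 3 then
    sgk x.2.2 * ((-1) ^ x.2.1 * (b.tr x.1 (x.2.1 + 1) : ℤ))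
  else sgk x.2.2 * (-2) ^ x.2.1

lemma sol {H : Type} [AddCommGroup H] (z : {x // x ∈ b.idx} → H)
    (hz : ∀ y : {x // x ∈ b.idx}, ∑ x : {x // x ∈ b.idx}, (if b.Nb x.1 y.1 then z x else 0) = 0)
    (x : Fin b.r × ℕ × Fin 11) (hx : x ∈ b.idx) :
    b.ext z x = b.cf x • b.ext z (x.1, 0, 0) := by
  obtain ⟨j, i, k⟩ := x
  have hi : i < (b.m j).size := (b.mem_idx.1 hx).1
  have hs : 3 ≤ k.val → k.val < 10 → i + 1 < (b.m j).size := b.succ_site hx
  have hy := b.y_eq z hz j i hi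
  have hya := b.ya z hz j i hi
  have hxx := b.x_eq z hz j i hi
  rw [cf]
  simp only
  fin_cases k
  · simp [sgk, hxx]
  · simp [sgk, hy]
  · simp only [Fin.reduceFinMk] at *
    rw [hya.1, hy]
    simp [sgk]
  · simp only [Fin.reduceFinMk] at *
    rw [hya.2, hy]
    simp [sgk]
  · simp only [Fin.reduceFinMk] at *
    rw [(b.x_succ z hz j i (hs (by decide) (by decide))).1, hxx]
    simp [sgk]
  · simp only [Fin.reduceFinMk] at *
    rw [(b.x_succ z hz j i (hs (by decide) (by decide))).2.1, hxx]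
    simp [sgk]
  · simp only [Fin.reduceFinMk] at *
    rw [(b.x_succ z hz j i (hs (by decide) (by decide))).2.2.1, hxx]
    simp [sgk]
  · simp only [Fin.reduceFinMk] at *
    rw [(b.x_succ z hz j i (hs (by decide) (by decide))).2.2.2.1, hxx]
    simp [sgk]
  · simp only [Fin.reduceFinMk] at *
    rw [(b.x_succ z hz j i (hs (by decide) (by decide))).2.2.2.2.1, hxx]
    simp [sgk]
  · simp only [Fin.reduceFinMk] at *
    rw [(b.x_succ z hz j i (hs (by decide) (by decide))).2.2.2.2.2.1, hxx]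
    simp [sgk]
  · simp only [Fin.reduceFinMk] at *
    have h1 : b.bt j i = 1 := by
      rcases b.bt_cases j i with h0 | h1
      · exact absurd hx (b.not_act_bit h0)
      · exact h1
    rw [b.z10 z hz j i hi, h1]
    simp [sgk]

/-- target elements -/
def sg (j : Fin b.r) (a : ℤ) : ∀ j, ZMod (b.m j) := Pi.single j (a : ZMod (b.m j))

lemma sg_add (j : Fin b.r) (a a' : ℤ) : b.sg j a + b.sg j a' = b.sg j (a + a') := by
  rw [sg, sg, sg, ← Pi.single_add]
  push_cast
  rfl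

lemma sg_zero (j : Fin b.r) : b.sg j 0 = 0 := by
  rw [sg]
  simp

/-- values -/
def vl (x : {x // x ∈ b.idx}) : ∀ j, ZMod (b.m j) := b.sg x.1.1 (b.cf x.1)

lemma ext_vl {x : Fin b.r × ℕ × Fin 11} (hx : x ∈ b.idx) : b.ext b.vl x = b.sg x.1 (b.cf x) :=
  b.ext_of_mem _ hx

lemma ext_vl_10 (j : Fin b.r) (i : ℕ) (h : i < (b.m j).size) :
    b.ext b.vl (j, i, 10) = b.sg j (-(b.bt j i : ℤ) * (-2) ^ i) := by
  rcases b.bt_cases j i with h0 | h1
  · rw [b.ext_of_notMem _ (b.not_act_bit h0), h0]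
    simp [sg_zero]
  · rw [b.ext_vl (b.act_bit h h1), h1]
    simp [cf, sgk]

lemma ext_vl_3 (j : Fin b.r) (i : ℕ) (h : i < (b.m j).size) :
    b.ext b.vl (j, i, 3) = b.sg j ((-1) ^ i * (b.tr j (i + 1) : ℤ)) := by
  by_cases h1 : i + 1 < (b.m j).size
  · rw [b.ext_vl (b.act_mid h1 (by decide))]
    simp [cf, sgk]
  · rw [b.ext_of_notMem _ (b.not_act_last h1)]
    have : i + 1 = (b.m j).size := by omega
    rw [this, b.tr_size, sg]
    simp

lemma rel_vl (y : Fin b.r × ℕ × Fin 11) (hy : y ∈ b.idx) :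
    ∑ x : {x // x ∈ b.idx}, (if b.Nb x.1 y then b.vl x else 0) = 0 := by
  obtain ⟨j, i, κ⟩ := y
  have hi : i < (b.m j).size := (b.mem_idx.1 hy).1
  have hs : 3 ≤ κ.val → κ.val < 10 → i + 1 < (b.m j).size := b.succ_site hy
  fin_cases κ
  · simp only [Fin.reduceFinMk] at *
    rcases Nat.eq_zero_or_pos i with h0 | h0
    · subst h0
      refine (b.sum_0_zero b.vl j).trans ?_
      rw [b.ext_vl (b.act_low hi (by decide)),
        b.ext_vl_10 j 0 hi, b.sg_add, ← b.sg_zero j]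
      congr 1
      simp [cf, sgk, b.tr_succ, b.tr_zero]
    · obtain ⟨i, rfl⟩ : ∃ i', i = i' + 1 := ⟨i - 1, by omega⟩
      rw [b.sum_0_succ, b.ext_vl_3 j i (by omega), b.ext_vl (b.act_low hi (by decide)),
        b.ext_vl_10 j _ hi, b.sg_add, b.sg_add, ← b.sg_zero j]
      congr 1
      simp only [cf, sgk, b.tr_succ j (i + 1)]
      push_cast
      have : (-2 : ℤ) ^ (i + 1) = (-1) ^ (i + 1) * 2 ^ (i + 1) := by
        rw [← mul_pow]
        norm_num
      simp [this]
      ring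
  · simp only [Fin.reduceFinMk] at *
    rw [b.sum_1, b.ext_vl (b.act_low hi (by decide)), b.ext_vl (b.act_low hi (by decide)),
      b.sg_add, ← b.sg_zero j]
    congr 1
    simp [cf, sgk]
  · simp only [Fin.reduceFinMk] at *
    rw [b.sum_2, b.ext_vl (b.act_low hi (by decide)), b.ext_vl_3 j i hi,
      b.sg_add, ← b.sg_zero j]
    congr 1
    simp [cf, sgk]
  all_goals
    simp only [Fin.reduceFinMk] at *
  · have h1 := hs (by decide) (by decide)
    rw [b.sum_3, b.ext_vl (b.act_low hi (by decide)), b.ext_vl (b.act_mid h1 (by decide)),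
      b.sg_add, ← b.sg_zero j]
    congr 1
    simp [cf, sgk]
  · have h1 := hs (by decide) (by decide)
    rw [b.sum_4, b.ext_vl (b.act_low hi (by decide)), b.ext_vl (b.act_mid h1 (by decide)),
      b.sg_add, ← b.sg_zero j]
    congr 1
    simp [cf, sgk]
  · have h1 := hs (by decide) (by decide)
    rw [b.sum_5, b.ext_vl (b.act_mid h1 (by decide)), b.ext_vl (b.act_mid h1 (by decide)),
      b.sg_add, ← b.sg_zero j]
    congr 1
    simp [cf, sgk]
  · have h1 := hs (by decide) (by decide)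
    rw [b.sum_6, b.ext_vl (b.act_mid h1 (by decide)), b.ext_vl (b.act_mid h1 (by decide)),
      b.sg_add, ← b.sg_zero j]
    congr 1
    simp [cf, sgk]
  · have h1 := hs (by decide) (by decide)
    rw [b.sum_7, b.ext_vl (b.act_mid h1 (by decide)), b.ext_vl (b.act_mid h1 (by decide)),
      b.sg_add, ← b.sg_zero j]
    congr 1
    simp [cf, sgk]
  · have h1 := hs (by decide) (by decide)
    rw [b.sum_8, b.ext_vl (b.act_mid h1 (by decide)), b.ext_vl (b.act_mid h1 (by decide)),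
      b.ext_vl (b.act_low h1 (by decide)), b.sg_add, b.sg_add, ← b.sg_zero j]
    congr 1
    simp [cf, sgk]
    ring
  · have h1 := hs (by decide) (by decide)
    rw [b.sum_9, b.ext_vl (b.act_mid h1 (by decide)), b.ext_vl (b.act_mid h1 (by decide)),
      b.sg_add, ← b.sg_zero j]
    congr 1
    simp [cf, sgk]
  · have h1 : b.bt j i = 1 := by
      rcases b.bt_cases j i with h0 | h1
      · exact absurd hy (b.not_act_bit h0)
      · exact h1
    rw [b.sum_10, b.ext_vl (b.act_low hi (by decide)), b.ext_vl_10 j i hi,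
      b.sg_add, ← b.sg_zero j, h1]
    congr 1
    simp [cf, sgk]

lemma base_mem (j : Fin b.r) : (j, 0, (0 : Fin 11)) ∈ b.idx :=
  b.act_low (b.size_pos j) (by decide)

/-- the solution of the presentation -/
def genr : Gen {x // x ∈ b.idx} (fun x y => b.Nb x.1 y.1) (Fin b.r) where
  base j := ⟨(j, 0, 0), b.base_mem j⟩
  m := b.m
  m_ne j := by have := b.hm j; omega
  c x := b.cf x.1
  jj x := x.1.1
  jj_base _ := rfl
  c_base j := by simp [cf, sgk]
  gen := by
    intro H _ z hz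
    constructor
    · intro x
      have := b.sol z hz x.1 x.2
      rw [b.ext_of_mem z x.2, b.ext_of_mem z (b.base_mem x.1.1)] at this
      exact this
    · intro j
      have := b.m_smul z hz j
      rw [b.ext_of_mem z (b.base_mem j)] at this
      exact this
  rel := by
    intro k
    exact b.rel_vl k.1 k.2

end Blk

end Pool.Agent.Lib.MP_5453bf_gt
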